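import Pool.Agent.Zk33.NF.Limit
import Pool.Agent.R753.HS.B
import Pool.Agent.R753.HS.S

set_option autoImplicit false
set_option linter.unusedSectionVars false

/-!
Closed classes: sets of small dimension, hulls of few ellipsoids.
-/

open Set Topology
open scoped Pointwise
open Pool.Agent.H843R3.Had2 Pool.Agent.W677.Shadow Pool.Agent.W677.Summand

namespace Pool.Agent.Zk33.NF

section basic

variable {E : Type*} [NormedAddCommGroup E] [NormedSpace ℝ E]

theorem eq_of_near {A B : Set E} (hA : IsClosed A) (hB : IsClosed B)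
    (h : ∀ ε : ℝ, 0 < ε → Near ε A B) : A = B := by
  refine subset_antisymm (fun x hx => ?_) (fun x hx => ?_)
  · rw [← hB.closure_eq, Metric.mem_closure_iff]
    intro ε hε
    obtain ⟨y, hy, h1⟩ := (h (ε / 2) (by positivity)).1 x hx
    exact ⟨y, hy, by linarith⟩
  · rw [← hA.closure_eq, Metric.mem_closure_iff]
    intro ε hε
    obtain ⟨y, hy, h1⟩ := (h (ε / 2) (by positivity)).2 x hx
    rw [dist_comm] at h1
    exact ⟨y, hy, by linarith⟩

theorem convex_of_near {A : Set E} (hA : IsClosed A)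
    (h : ∀ ε : ℝ, 0 < ε → ∃ S, Convex ℝ S ∧ Near ε A S) : Convex ℝ A := by
  intro x hx y hy a b ha hb hab
  rw [← hA.closure_eq, Metric.mem_closure_iff]
  intro ε hε
  obtain ⟨S, hS, h1⟩ := h (ε / 4) (by positivity)
  obtain ⟨x', hx', h2⟩ := h1.1 x hx
  obtain ⟨y', hy', h3⟩ := h1.1 y hy
  obtain ⟨z, hz, h4⟩ := h1.2 _ (hS hx' hy' ha hb hab)
  refine ⟨z, hz, ?_⟩
  have h5 : dist (a • x + b • y) (a • x' + b • y') ≤ ε / 4 := by
    refine (dist_add_add_le _ _ _ _).trans ?_
    rw [dist_smul₀, dist_smul₀, Real.norm_eq_abs, Real.norm_eq_abs, abs_of_nonneg ha,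
      abs_of_nonneg hb]
    calc a * dist x x' + b * dist y y' ≤ a * (ε / 4) + b * (ε / 4) := by gcongr
      _ = ε / 4 := by rw [← add_mul, hab, one_mul]
  have h6 := dist_triangle (a • x + b • y) (a • x' + b • y') z
  rw [dist_comm] at h4
  linarith

theorem Near.hull {A B : Set E} {δ : ℝ} (h : Near δ A B) :
    Near δ (convexHull ℝ A) (convexHull ℝ B) := by
  have key : ∀ A B : Set E, (∀ x ∈ A, ∃ y ∈ B, dist x y ≤ δ) →
      ∀ x ∈ convexHull ℝ A, ∃ y ∈ convexHull ℝ B, dist x y ≤ δ := by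
    intro A B h
    have h1 : Convex ℝ {x | ∃ y ∈ convexHull ℝ B, dist x y ≤ δ} := by
      rintro x ⟨x', hx', h2⟩ y ⟨y', hy', h3⟩ a b ha hb hab
      refine ⟨a • x' + b • y', convex_convexHull ℝ B hx' hy' ha hb hab, ?_⟩
      refine (dist_add_add_le _ _ _ _).trans ?_
      rw [dist_smul₀, dist_smul₀, Real.norm_eq_abs, Real.norm_eq_abs, abs_of_nonneg ha,
        abs_of_nonneg hb]
      calc a * dist x x' + b * dist y y' ≤ a * δ + b * δ := by gcongr
        _ = δ := by rw [← add_mul, hab, one_mul]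
    refine fun x hx => convexHull_min (fun x hx => ?_) h1 hx
    obtain ⟨y, hy, h2⟩ := h x hx
    exact ⟨y, subset_convexHull ℝ B hy, h2⟩
  refine ⟨key A B h.1, fun y hy => ?_⟩
  obtain ⟨x, hx, h1⟩ := key B A (fun y hy => by
    obtain ⟨x, hx, h1⟩ := h.2 y hy
    exact ⟨x, hx, by rwa [dist_comm]⟩) y hy
  exact ⟨x, hx, by rwa [dist_comm]⟩

end basic

/-- the dimension does not increase in the limit -/
theorem dim_limit {n m : ℕ} {A : Set (Eu n)} (hA : A.Nonempty)
    (h : ∀ ε : ℝ, 0 < ε → ∃ S : Set (Eu n), dim S ≤ m ∧ Near ε A S) : dim A ≤ m := by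
  by_contra hcon
  push Not at hcon
  obtain ⟨a₀, ha₀⟩ := hA
  have h1 : vectorSpan ℝ A = Submodule.span ℝ ((· -ᵥ a₀) '' A) :=
    vectorSpan_eq_span_vsub_set_right ℝ ha₀
  obtain ⟨f, hf1, -, hf3⟩ := Submodule.exists_fun_fin_finrank_span_eq ℝ ((· -ᵥ a₀) '' A)
  have h2 : Module.finrank ℝ (Submodule.span ℝ ((· -ᵥ a₀) '' A)) = dim A := by
    rw [← h1]; rfl
  choose a ha hfa using hf1
  obtain ⟨ε, hε, hball⟩ := Metric.isOpen_iff.1
    (isOpen_setOfPred_linearIndependent (𝕜 := ℝ) (E := Eu n)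
      (ι := Fin (Module.finrank ℝ (Submodule.span ℝ ((· -ᵥ a₀) '' A))))) f hf3
  obtain ⟨S, hS, h3⟩ := h (ε / 4) (by positivity)
  obtain ⟨s₀, hs₀, h4⟩ := h3.1 a₀ ha₀
  choose s hs h5 using fun i => h3.1 (a i) (ha i)
  have h6 : (fun i => s i - s₀) ∈ Metric.ball f ε := by
    rw [Metric.mem_ball, dist_pi_lt_iff hε]
    intro i
    rw [← hfa i]
    show dist (s i - s₀) (a i - a₀) < ε
    have h7 := dist_sub_sub_le (s i) s₀ (a i) a₀
    have h8 := h5 i
    rw [dist_comm] at h8 h4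
    linarith
  have h9 : LinearIndependent ℝ (fun i => s i - s₀) := hball h6
  have h10 : Submodule.span ℝ (Set.range fun i => s i - s₀) ≤ vectorSpan ℝ S := by
    rw [Submodule.span_le]
    rintro _ ⟨i, rfl⟩
    exact vsub_mem_vectorSpan ℝ (hs i) hs₀
  have h11 := Submodule.finrank_mono h10
  rw [finrank_span_eq_card h9, Fintype.card_fin, h2] at h11
  have h12 : dim S = Module.finrank ℝ (vectorSpan ℝ S) := rfl
  omega

theorem dim_image {n m : ℕ} (f : Eu n →ᵃ[ℝ] Eu m) (S : Set (Eu n)) : dim (f '' S) ≤ dim S := by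
  unfold dim
  rw [← f.map_vectorSpan]
  exact Submodule.finrank_map_le _ _

/-- The unit ball of `ℝ^d`. -/
abbrev B (d : ℕ) : Set (Eu d) := Metric.closedBall 0 1

/-- hulls of ellipsoids with given maximal dimensions -/
def EH {r : ℕ} (d : Fin r → ℕ) {n : ℕ} (S : Set (Eu n)) : Prop :=
  ∃ f : ∀ i, Eu (d i) →ᵃ[ℝ] Eu n, S = convexHull ℝ (⋃ i, f i '' B (d i))

/-- hulls of few ellipsoids -/
def FewEll {n : ℕ} (S : Set (Eu n)) : Prop :=
  ∃ (r : ℕ) (d : Fin r → ℕ), 0 < r ∧ ∑ i, min (d i + 1) 4 ≤ 8 ∧ EH d S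

theorem affine_cont {d n : ℕ} (f : Eu d →ᵃ[ℝ] Eu n) : Continuous f :=
  f.continuous_of_finiteDimensional

theorem EH.compact {r : ℕ} {d : Fin r → ℕ} {n : ℕ} {S : Set (Eu n)} (h : EH d S) :
    IsCompact S := by
  obtain ⟨f, rfl⟩ := h
  rw [Pool.Agent.R753.HS.hull_eq_comb
    (fun i => (convex_closedBall (0 : Eu (d i)) 1).affine_image (f i))
    (fun i => (Metric.nonempty_closedBall.2 zero_le_one).image _)]
  exact Pool.Agent.R753.HS.comb_compact fun i =>
    (isCompact_closedBall (0 : Eu (d i)) 1).image (affine_cont (f i))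

theorem EH.image {r : ℕ} {d : Fin r → ℕ} {n m : ℕ} {S : Set (Eu n)} (h : EH d S)
    (g : Eu n →ᵃ[ℝ] Eu m) : EH d (g '' S) := by
  obtain ⟨f, rfl⟩ := h
  refine ⟨fun i => g.comp (f i), ?_⟩
  rw [AffineMap.image_convexHull, image_iUnion]
  congr 1
  refine iUnion_congr fun i => ?_
  rw [image_image]
  rfl

/-- Images of balls are images of balls of small dimension. -/
theorem ball_reduce {d n : ℕ} (f : Eu d →ᵃ[ℝ] Eu n) :
    ∃ (e : ℕ) (g : Eu e →ᵃ[ℝ] Eu n), e ≤ d ∧ e ≤ n ∧ f '' B d = g '' B e := by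
  set V : Submodule ℝ (Eu d) := (LinearMap.ker f.linear)ᗮ with hV
  obtain ⟨ι, hι⟩ := coords V rfl
  have hker : Module.finrank ℝ (LinearMap.ker f.linear) + Module.finrank ℝ V = d := by
    have := Submodule.finrank_add_finrank_orthogonal (LinearMap.ker f.linear)
    rwa [finrank_euclideanSpace, Fintype.card_fin] at this
  have hrange := f.linear.finrank_range_add_finrank_ker
  rw [finrank_euclideanSpace, Fintype.card_fin] at hrange
  have hle := Submodule.finrank_le (LinearMap.range f.linear)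
  rw [finrank_euclideanSpace, Fintype.card_fin] at hle
  refine ⟨Module.finrank ℝ V, f.comp ι.toLinearMap.toAffineMap, by omega, by omega, ?_⟩
  refine subset_antisymm ?_ ?_
  · rintro _ ⟨x, hx, rfl⟩
    obtain ⟨u, hu⟩ := (hι (V.starProjection x)).1 (V.starProjection_apply_mem x)
    refine ⟨u, ?_, ?_⟩
    · rw [mem_closedBall_zero_iff] at hx ⊢
      rw [← ι.norm_map, hu]
      exact (V.norm_starProjection_apply_le x).trans hx
    · show f (ι u) = f x
      rw [hu]
      have h1 : x - V.starProjection x ∈ LinearMap.ker f.linear := by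
        have h2 := V.sub_starProjection_mem_orthogonal x
        have h3 : Vᗮ = LinearMap.ker f.linear := by
          rw [hV, Submodule.orthogonal_orthogonal]
        exact h3.le h2
      have h3 := f.linearMap_vsub x (V.starProjection x)
      rw [vsub_eq_sub, LinearMap.mem_ker.1 h1, vsub_eq_sub] at h3
      exact (sub_eq_zero.1 h3.symm).symm
  · rintro _ ⟨u, hu, rfl⟩
    refine ⟨ι u, ?_, rfl⟩
    rw [mem_closedBall_zero_iff] at hu ⊢
    rwa [ι.norm_map]

theorem EH.reduce {r : ℕ} {d : Fin r → ℕ} {n : ℕ} {S : Set (Eu n)} (h : EH d S) :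
    ∃ e : Fin r → ℕ, (∀ i, e i ≤ d i) ∧ (∀ i, e i ≤ n) ∧ EH e S := by
  obtain ⟨f, rfl⟩ := h
  choose e g h1 h2 h3 using fun i => ball_reduce (f i)
  refine ⟨e, h1, h2, g, ?_⟩
  congr 1
  exact iUnion_congr fun i => h3 i

/-- a fixed pattern is closed -/
theorem EH.limit {r : ℕ} {d : Fin r → ℕ} {n : ℕ} {A : Set (Eu n)} (hA : IsCompact A)
    (h : ∀ ε : ℝ, 0 < ε → ∃ S : Set (Eu n), EH d S ∧ Near ε A S) : EH d A := by
  classical
  -- the parameters
  let Θ : Type := ∀ i : Fin r, Eu n × (Eu (d i) →L[ℝ] Eu n)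
  let U : Θ → Set (Eu n) := fun θ => ⋃ i, (fun x => (θ i).1 + (θ i).2 x) '' B (d i)
  have hU : ∀ θ, EH d (convexHull ℝ (U θ)) := fun θ =>
    ⟨fun i => AffineMap.const ℝ (Eu (d i)) (θ i).1 + (θ i).2.toLinearMap.toAffineMap, rfl⟩
  obtain ⟨R, hR⟩ := hA.isBounded.subset_closedBall 0
  have hR' : ∀ x ∈ A, ‖x‖ ≤ R := fun x hx => mem_closedBall_zero_iff.1 (hR hx)
  have h1 : ∀ k : ℕ, ∃ θ : Θ, ‖θ‖ ≤ 2 * (|R| + 1) ∧
      Near (1 / ((k : ℝ) + 1)) A (convexHull ℝ (U θ)) := by
    intro k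
    obtain ⟨S, ⟨f, rfl⟩, h2⟩ := h (1 / ((k : ℝ) + 1)) (by positivity)
    have hb : ∀ i, ∀ x ∈ B (d i), ‖f i x‖ ≤ |R| + 1 := by
      intro i x hx
      obtain ⟨y, hy, h3⟩ := h2.2 (f i x)
        (subset_convexHull ℝ _ (mem_iUnion.2 ⟨i, mem_image_of_mem _ hx⟩))
      have h4 := hR' y hy
      have h5 : ‖f i x‖ ≤ ‖y‖ + dist y (f i x) := by
        rw [dist_eq_norm, ← norm_neg (y - f i x)]
        have : f i x = y + -(y - f i x) := by abel
        nth_rewrite 1 [this]
        exact norm_add_le _ _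
      have h6 : 1 / ((k : ℝ) + 1) ≤ 1 := by
        rw [div_le_one (by positivity)]
        have : (0 : ℝ) ≤ k := by positivity
        linarith
      have h7 := le_abs_self R
      linarith
    have hf0 : ∀ i, ∀ x, f i x = f i 0 + (f i).linear x := by
      intro i x
      have := (f i).map_vadd 0 x
      rw [vadd_eq_add, add_zero, vadd_eq_add] at this
      rw [this, add_comm]
    refine ⟨fun i => (f i 0, LinearMap.toContinuousLinearMap (f i).linear), ?_, ?_⟩
    · rw [pi_norm_le_iff_of_nonneg (by positivity)]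
      intro i
      have h8 : ‖f i 0‖ ≤ |R| + 1 := hb i 0 (by simp)
      refine norm_prod_le_iff.2 ⟨by linarith [abs_nonneg R], ?_⟩
      refine ContinuousLinearMap.opNorm_le_of_unit_norm (by positivity) fun x hx => ?_
      show ‖(f i).linear x‖ ≤ _
      have h9 : (f i).linear x = f i x - f i 0 := by rw [hf0 i x]; abel
      rw [h9]
      have h10 := hb i x (by rw [mem_closedBall_zero_iff, hx])
      have h11 := norm_sub_le (f i x) (f i 0)
      linarith
    · have h12 : U (fun i => (f i 0, LinearMap.toContinuousLinearMap (f i).linear)) =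
          ⋃ i, f i '' B (d i) := by
        refine iUnion_congr fun i => ?_
        refine image_congr fun x _ => ?_
        exact (hf0 i x).symm
      rw [h12]
      exact h2
  choose θ hθ1 hθ2 using h1
  obtain ⟨θ₀, -, φ, hφ, hlim⟩ := tendsto_subseq_of_bounded
    (Metric.isBounded_closedBall (x := (0 : Θ)) (r := 2 * (|R| + 1)))
    (fun k => mem_closedBall_zero_iff.2 (hθ1 k))
  have hUn : ∀ θ θ' : Θ, Near (2 * dist θ θ') (U θ) (U θ') := by
    have key : ∀ θ θ' : Θ, ∀ x ∈ U θ, ∃ y ∈ U θ', dist x y ≤ 2 * dist θ θ' := by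
      intro θ θ' x hx
      obtain ⟨i, z, hz, rfl⟩ := mem_iUnion.1 hx
      refine ⟨(θ' i).1 + (θ' i).2 z, mem_iUnion.2 ⟨i, z, hz, rfl⟩, ?_⟩
      have h2 : dist (θ i) (θ' i) ≤ dist θ θ' := dist_le_pi_dist θ θ' i
      have h3 : dist (θ i).1 (θ' i).1 ≤ dist θ θ' := (le_max_left _ _).trans h2
      have h4 : dist (θ i).2 (θ' i).2 ≤ dist θ θ' := (le_max_right _ _).trans h2
      refine (dist_add_add_le _ _ _ _).trans ?_
      have h5 : dist ((θ i).2 z) ((θ' i).2 z) ≤ dist θ θ' := by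
        rw [dist_eq_norm, ← sub_apply]
        refine (ContinuousLinearMap.le_opNorm _ _).trans ?_
        rw [← dist_eq_norm]
        have h6 : ‖z‖ ≤ 1 := mem_closedBall_zero_iff.1 hz
        calc dist (θ i).2 (θ' i).2 * ‖z‖ ≤ dist θ θ' * 1 := by gcongr
          _ = dist θ θ' := mul_one _
      linarith
    intro θ θ'
    refine ⟨key θ θ', fun y hy => ?_⟩
    obtain ⟨x, hx, h2⟩ := key θ' θ y hy
    exact ⟨x, hx, by rwa [dist_comm, dist_comm θ θ']⟩
  have heq : A = convexHull ℝ (U θ₀) := by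
    refine eq_of_near hA.isClosed (hU θ₀).compact.isClosed fun ε hε => ?_
    have e1 : ∀ᶠ k in Filter.atTop, 2 * dist (θ (φ k)) θ₀ < ε / 2 := by
      have := (tendsto_iff_dist_tendsto_zero.1 hlim).const_mul 2
      rw [mul_zero] at this
      exact this.eventually_lt_const (by positivity)
    have e2 : ∀ᶠ k in Filter.atTop, 1 / ((φ k : ℝ) + 1) < ε / 2 := by
      have := tendsto_one_div_add_atTop_nhds_zero_nat (𝕜 := ℝ) |>.comp hφ.tendsto_atTop
      exact this.eventually_lt_const (by positivity)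
    obtain ⟨k, hk1, hk2⟩ := (e1.and e2).exists
    exact ((hθ2 (φ k)).trans (hUn (θ (φ k)) θ₀).hull).mono (by linarith)
  rw [heq]
  exact hU θ₀

end Pool.Agent.Zk33.NF
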