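import Pool.Agent.W677.Summand3

set_option autoImplicit false
set_option linter.unusedSectionVars false

/-!
Illumination of a convex body whose normal cones are contained in normal cones of a set of lower
dimension.
-/

open Set Topology
open scoped Pointwise
open Pool.Agent.H843R3.Had2 Pool.Agent.W677.Shadow Pool.Agent.W677.Summand

namespace Pool.Agent.Zk33.NF

variable {E F U : Type*} [NormedAddCommGroup E] [NormedSpace ℝ E] [NormedAddCommGroup F]
  [NormedSpace ℝ F] [NormedAddCommGroup U] [NormedSpace ℝ U]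

/-- `f` is an outer normal functional of `K` at `x`. -/
def Nrm (K : Set E) (x : E) (f : E →L[ℝ] ℝ) : Prop := ∀ y ∈ K, f y ≤ f x

theorem lt_of_interior {K : Set E} {x y : E} (hy : y ∈ interior K) {f : E →L[ℝ] ℝ} (hf : f ≠ 0)
    (h : Nrm K x f) : f y < f x := by
  obtain ⟨v, hv⟩ : ∃ v, f v ≠ 0 := by
    by_contra hcon
    push Not at hcon
    exact hf (ContinuousLinearMap.ext hcon)
  obtain ⟨w, hw⟩ : ∃ w, 0 < f w := by
    rcases lt_or_gt_of_ne hv with h1 | h1
    · exact ⟨-v, by rw [map_neg]; linarith⟩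
    · exact ⟨v, h1⟩
  obtain ⟨ε, hε, h1⟩ := Co.of_interior hy w
  have h2 := h _ (interior_subset h1)
  rw [map_add, map_smul, smul_eq_mul] at h2
  have : 0 < ε * f w := by positivity
  linarith

theorem co_of_normals {K : Set E} (hK : Convex ℝ K) {p₀ : E} (hp₀ : p₀ ∈ interior K) {x u : E}
    (h : ∀ f : E →L[ℝ] ℝ, f ≠ 0 → Nrm K x f → f u < 0) : Co K x u := by
  by_contra hcon
  have hxi : x ∉ interior K := fun hx => hcon (Co.of_interior hx u)
  set R : Set E := (fun t : ℝ => x + t • u) '' Ici 0 with hR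
  have hRc : Convex ℝ R := by
    have h1 : R = (fun y => x + y) '' ((LinearMap.toSpanSingleton ℝ E u) '' Ici 0) := by
      rw [hR, image_image]; rfl
    rw [h1]
    exact ((convex_Ici 0).linear_image _).translate x
  have hdisj : Disjoint (interior K) R := by
    rw [Set.disjoint_left]
    rintro _ h1 ⟨t, ht, rfl⟩
    rcases (show (0 : ℝ) ≤ t from ht).eq_or_lt with h2 | h2
    · subst h2
      simp only [zero_smul, add_zero] at h1
      exact hxi h1
    · exact hcon ⟨t, h2, h1⟩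
  obtain ⟨f, c, h1, h2⟩ := geometric_hahn_banach_open hK.interior isOpen_interior hRc hdisj
  have hx : c ≤ f x := by
    have := h2 x ⟨0, le_refl (0 : ℝ), by simp⟩
    exact this
  have hf0 : f ≠ 0 := by
    rintro rfl
    have h3 := h1 p₀ hp₀
    simp only [zero_apply] at h3 hx
    linarith
  have hN : Nrm K x f := by
    intro y hy
    have h3 : closure (interior K) ⊆ {z | f z ≤ f x} := by
      refine closure_minimal (fun z hz => ?_) (isClosed_le f.continuous continuous_const)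
      exact ((h1 z hz).trans_le hx).le
    have h4 := hK.closure_interior_eq_closure_of_nonempty_interior ⟨p₀, hp₀⟩
    exact h3 (h4 ▸ subset_closure hy)
  have h3 := h f hf0 hN
  have h4 := h2 (x + ((f x - c + 1) / (-f u)) • u) ⟨_, by
    show 0 ≤ (f x - c + 1) / (-f u)
    exact div_nonneg (by linarith) (by linarith), rfl⟩
  rw [map_add, map_smul, smul_eq_mul] at h4
  have h5 : (f x - c + 1) / (-f u) * f u = -(f x - c + 1) := by
    have : f u ≠ 0 := h3.ne
    field_simp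
  rw [h5] at h4
  linarith

/-- **The core.** -/
theorem core {K : Set E} (hK : Convex ℝ K) (hKc : IsCompact K) {p₀ : E}
    (hp₀ : p₀ ∈ interior K) (ι : U →ₗᵢ[ℝ] E)
    (π : E →L[ℝ] F) (s : F → E) (hs : ∀ v, π (s v) = v)
    (he : ∀ y, π y = 0 → ∃ z : U, y = ι z)
    (W : Finset U) {ρ : ℝ} (hρ : 0 < ρ)
    (hW : ∀ X ∈ K, ∃ w ∈ W, ∀ f, Nrm K X f → ∀ z, ‖z‖ ≤ ρ → f (ι (w + z)) ≤ 0) (A : Finset F)
    (hA : ∀ x ∈ π '' K, ∃ v ∈ A, Co (π '' K) x v) :
    ∃ R : ℝ, ∀ X ∈ K, ∃ w ∈ W, ∃ v ∈ A, Co K X (s v + R • ι w) := by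
  classical
  obtain ⟨C, hC⟩ := hKc.isBounded.exists_norm_le
  have hQ : Convex ℝ (π '' K) := hK.linear_image π.toLinearMap
  obtain ⟨r, hr, hr1⟩ := unif hQ (hKc.image π.continuous) subset_rfl (fun v : A => (v : F)) (by
    intro x hx
    obtain ⟨v, hv, h1⟩ := hA x hx
    exact ⟨⟨v, hv⟩, h1⟩)
  obtain ⟨M, hM0, hM⟩ : ∃ M : ℝ, 0 ≤ M ∧ ∀ v ∈ A, ‖s v‖ ≤ M := by
    refine ⟨∑ v ∈ A, ‖s v‖, Finset.sum_nonneg fun _ _ => norm_nonneg _, fun v hv => ?_⟩
    exact Finset.single_le_sum (f := fun v => ‖s v‖) (fun _ _ => norm_nonneg _) hv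
  have hC0 : 0 ≤ C := (norm_nonneg _).trans (hC p₀ (interior_subset hp₀))
  set D : ℝ := 2 * C + r * M + 1 with hD
  have hD0 : 0 < D := by positivity
  set R : ℝ := D / (r * ρ) with hR
  have hR0 : 0 < R := by positivity
  refine ⟨R, fun X hX => ?_⟩
  obtain ⟨w, hw, hw1⟩ := hW X hX
  obtain ⟨v, hv⟩ := hr1 (π X) ⟨X, hX, rfl⟩
  refine ⟨w, hw, v, v.2, ?_⟩
  obtain ⟨Y, hY, hY1⟩ := lift_int hK hp₀ π hv
  obtain ⟨z, hz⟩ := he (Y - X - r • s v) (by
    rw [map_sub, map_sub, map_smul, hs, hY1]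
    abel)
  have hzD : ‖z‖ ≤ D := by
    rw [← ι.norm_map z, ← hz]
    have h2 := norm_sub_le (Y - X) (r • s v)
    have h3 := norm_sub_le Y X
    have h4 := hC Y (interior_subset hY)
    have h5 := hC X hX
    have h6 : ‖r • s (v : F)‖ ≤ r * M := by
      rw [norm_smul, Real.norm_eq_abs, abs_of_pos hr]
      exact mul_le_mul_of_nonneg_left (hM v v.2) hr.le
    linarith
  refine co_of_normals hK hp₀ fun f hf0 hf => ?_
  have h1 := lt_of_interior hY hf0 hf
  have h2 := hw1 f hf (-((1 / (r * R)) • z)) (by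
    rw [norm_neg, norm_smul, Real.norm_eq_abs, abs_of_pos (by positivity)]
    have h3 : 1 / (r * R) = ρ / D := by
      rw [hR]; field_simp
    rw [h3, div_mul_eq_mul_div, div_le_iff₀ hD0]
    gcongr)
  have h3 : f (Y - X) = r * f (s v) + f (ι z) := by
    have : Y - X = r • s v + ι z := by rw [← hz]; abel
    rw [this, map_add, map_smul, smul_eq_mul]
  rw [map_add, map_add, map_neg, map_neg, map_smul, map_smul, smul_eq_mul] at h2
  rw [map_sub] at h3
  have h4 : r * R * (f (ι w) + -(1 / (r * R) * f (ι z))) ≤ 0 :=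
    mul_nonpos_of_nonneg_of_nonpos (by positivity) h2
  have h5 : r * R * (f (ι w) + -(1 / (r * R) * f (ι z))) = r * R * f (ι w) - f (ι z) := by
    field_simp
    ring
  rw [h5] at h4
  have h6 : r * f (s v + R • ι w) < 0 := by
    rw [map_add, map_smul, smul_eq_mul]
    linarith
  exact (pos_iff_neg_of_mul_neg h6).1 hr

/-- The normal cones of `K` are contained in normal cones of `A`. -/
def Refines (K A : Set E) : Prop := ∀ X ∈ K, ∃ a ∈ A, ∀ f : E →L[ℝ] ℝ, Nrm K X f → Nrm A a f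

/-- **The bound** `c(K) ≤ c(A) c(Q)`. -/
theorem bound {A : Set E} {a₀ : E} {ι : U →ₗᵢ[ℝ] E}
    (hι : ∀ x, x ∈ vectorSpan ℝ A ↔ ∃ u, ι u = x) (ha : a₀ ∈ A)
    (hAc : IsCompact A) {K : Set E} (hK : Convex ℝ K) (hKc : IsCompact K)
    (hKi : (interior K).Nonempty) (hA : Convex ℝ A) (href : Refines K A) (π : E →L[ℝ] F) (s : F → E)
    (hs : ∀ v, π (s v) = v) (he : ∀ y, π y = 0 → y ∈ vectorSpan ℝ A) (N M : ℕ)
    (hN : Cov (Lset ι A a₀) N) (hM : Cov (π '' K) M) : Cov K (N * M) := by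
  classical
  have hι' : ∀ x ∈ vectorSpan ℝ A, ∃ u, ι u = x := fun x hx => (hι x).1 hx
  obtain ⟨p₀, hp₀⟩ := hKi
  obtain ⟨W, hW, hW1⟩ := dirs_of_cover hN
  obtain ⟨V, hV, hV1⟩ := dirs_of_cover hM
  have hL : Convex ℝ (Lset ι A a₀) := Lset_convex hA
  have hLc : IsCompact (Lset ι A a₀) := Lset_compact hι' ha hAc
  obtain ⟨q, hq, hq1⟩ := unif hL hLc subset_rfl (fun w : W => (w : U)) (by
    intro x hx
    obtain ⟨v, hv, h1⟩ := hW1 x hx
    exact ⟨⟨v, hv⟩, h1⟩)
  obtain ⟨ρ, hρ, hρ1⟩ := depth hLc W q (fun y hy => by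
    obtain ⟨w, hw⟩ := hq1 y hy
    exact ⟨w, w.2, hw⟩)
  obtain ⟨R, hR⟩ := core hK hKc hp₀ ι π s hs (fun y hy => by
    obtain ⟨u, hu⟩ := hι' y (he y hy)
    exact ⟨u, hu.symm⟩) (W.image fun w => q • w) hρ (by
    intro X hX
    obtain ⟨a, ha', h1⟩ := href X hX
    have h2 : a ∈ phi ι a₀ '' Lset ι A a₀ := by rw [phi_image hι' ha]; exact ha'
    obtain ⟨y, hy, rfl⟩ := h2
    obtain ⟨w, hw, h3⟩ := hρ1 y hy
    refine ⟨q • w, Finset.mem_image_of_mem _ hw, fun f hf z hz => ?_⟩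
    have h4 := h1 f hf (a₀ + ι (y + q • w + z)) (h3 z hz)
    rw [phi_apply, add_assoc y, map_add ι y, map_add f, map_add f, map_add f] at h4
    linarith) V hV1
  obtain ⟨T, hT1, hT2⟩ := cover_of_dirs hK hKc
    (((W.image fun w => q • w) ×ˢ V).image (fun p => s p.2 + R • ι p.1)) (by
      intro X hX
      obtain ⟨w, hw, v, hv, h1⟩ := hR X hX
      exact ⟨_, Finset.mem_image_of_mem _ (Finset.mk_mem_product hw hv), h1⟩)
  refine ⟨T, hT1.trans (Finset.card_image_le.trans ?_), hT2⟩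
  rw [Finset.card_product]
  exact Nat.mul_le_mul (Finset.card_image_le.trans hW) hV

end Pool.Agent.Zk33.NF
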