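import Pool.Agent.Zk33.NF.Limit

set_option autoImplicit false
set_option linter.unusedSectionVars false

/-!
Illumination by directions which illuminate all fibres together; with exceptional points.
-/

open Set Topology
open scoped Pointwise
open Pool.Agent.H843R3.Had2 Pool.Agent.W677.Shadow Pool.Agent.W677.Summand

namespace Pool.Agent.Zk33.NF

section general

variable {E F U : Type*} [NormedAddCommGroup E] [NormedSpace ℝ E] [NormedAddCommGroup F]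
  [NormedSpace ℝ F] [NormedAddCommGroup U] [NormedSpace ℝ U]

/-- **The core**, with exceptional points. -/
theorem coreZ {K : Set E} (hK : Convex ℝ K) (hKc : IsCompact K) {p₀ : E}
    (hp₀ : p₀ ∈ interior K) (ι : U →ₗᵢ[ℝ] E)
    (π : E →L[ℝ] F) (s : F → E) (hs : ∀ v, π (s v) = v)
    (he : ∀ y, π y = 0 → ∃ z : U, y = ι z)
    (W : Finset U) (Z : Set E) {ρ : ℝ} (hρ : 0 < ρ)
    (hW : ∀ X ∈ K, X ∉ Z → ∃ w ∈ W, ∀ f, Nrm K X f → ∀ z, ‖z‖ ≤ ρ → f (ι (w + z)) ≤ 0)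
    (A : Finset F) (hA : ∀ x ∈ π '' K, ∃ v ∈ A, Co (π '' K) x v) :
    ∃ R : ℝ, ∀ X ∈ K, X ∉ Z → ∃ w ∈ W, ∃ v ∈ A, Co K X (s v + R • ι w) := by
  classical
  obtain ⟨C, hC⟩ := hKc.isBounded.exists_norm_le
  have hQ : Convex ℝ (π '' K) := hK.linear_image π.toLinearMap
  obtain ⟨r, hr, hr1⟩ := unif hQ (hKc.image π.continuous) subset_rfl (fun v : A => (v : F)) (by
    intro x hx
    obtain ⟨v, hv, h1⟩ := hA x hx
    exact ⟨⟨v, hv⟩, h1⟩)
  obtain ⟨M, hM0, hM⟩ : ∃ M : ℝ, 0 ≤ M ∧ ∀ v ∈ A, ‖s v‖ ≤ M := by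
    refine ⟨∑ v ∈ A, ‖s v‖, Finset.sum_nonneg fun _ _ => norm_nonneg _, fun v hv => ?_⟩
    exact Finset.single_le_sum (f := fun v => ‖s v‖) (fun _ _ => norm_nonneg _) hv
  have hC0 : 0 ≤ C := (norm_nonneg _).trans (hC p₀ (interior_subset hp₀))
  set D : ℝ := 2 * C + r * M + 1 with hD
  have hD0 : 0 < D := by positivity
  set R : ℝ := D / (r * ρ) with hR
  have hR0 : 0 < R := by positivity
  refine ⟨R, fun X hX hXZ => ?_⟩
  obtain ⟨w, hw, hw1⟩ := hW X hX hXZ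
  obtain ⟨v, hv⟩ := hr1 (π X) ⟨X, hX, rfl⟩
  refine ⟨w, hw, v, v.2, ?_⟩
  obtain ⟨Y, hY, hY1⟩ := lift_int hK hp₀ π hv
  obtain ⟨z, hz⟩ := he (Y - X - r • s v) (by
    rw [map_sub, map_sub, map_smul, hs, hY1]
    abel)
  have hzD : ‖z‖ ≤ D := by
    rw [← ι.norm_map z, ← hz]
    have h2 := norm_sub_le (Y - X) (r • s v)
    have h3 := norm_sub_le Y X
    have h4 := hC Y (interior_subset hY)
    have h5 := hC X hX
    have h6 : ‖r • s (v : F)‖ ≤ r * M := by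
      rw [norm_smul, Real.norm_eq_abs, abs_of_pos hr]
      exact mul_le_mul_of_nonneg_left (hM v v.2) hr.le
    linarith
  refine co_of_normals hK hp₀ fun f hf0 hf => ?_
  have h1 := lt_of_interior hY hf0 hf
  have h2 := hw1 f hf (-((1 / (r * R)) • z)) (by
    rw [norm_neg, norm_smul, Real.norm_eq_abs, abs_of_pos (by positivity)]
    have h3 : 1 / (r * R) = ρ / D := by
      rw [hR]; field_simp
    rw [h3, div_mul_eq_mul_div, div_le_iff₀ hD0]
    gcongr)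
  have h3 : f (Y - X) = r * f (s v) + f (ι z) := by
    have : Y - X = r • s v + ι z := by rw [← hz]; abel
    rw [this, map_add, map_smul, smul_eq_mul]
  rw [map_add, map_add, map_neg, map_neg, map_smul, map_smul, smul_eq_mul] at h2
  rw [map_sub] at h3
  have h4 : r * R * (f (ι w) + -(1 / (r * R) * f (ι z))) ≤ 0 :=
    mul_nonpos_of_nonneg_of_nonpos (by positivity) h2
  have h5 : r * R * (f (ι w) + -(1 / (r * R) * f (ι z))) = r * R * f (ι w) - f (ι z) := by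
    field_simp
    ring
  rw [h5] at h4
  have h6 : r * f (s v + R • ι w) < 0 := by
    rw [map_add, map_smul, smul_eq_mul]
    linarith
  exact (pos_iff_neg_of_mul_neg h6).1 hr

/-- The count. -/
theorem boundZ {K : Set E} (hK : Convex ℝ K) (hKc : IsCompact K) (hKi : (interior K).Nonempty)
    (ι : U →ₗᵢ[ℝ] E) (π : E →L[ℝ] F) (s : F → E) (hs : ∀ v, π (s v) = v)
    (he : ∀ y, π y = 0 → ∃ z : U, y = ι z)
    (W : Finset U) (Z : Finset E) {ρ : ℝ} (hρ : 0 < ρ)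
    (hW : ∀ X ∈ K, X ∉ Z → ∃ w ∈ W, ∀ f, Nrm K X f → ∀ z, ‖z‖ ≤ ρ → f (ι (w + z)) ≤ 0)
    (M : ℕ) (hM : Cov (π '' K) M) : Cov K (W.card * M + Z.card) := by
  classical
  obtain ⟨p₀, hp₀⟩ := hKi
  obtain ⟨V, hV, hV1⟩ := dirs_of_cover hM
  obtain ⟨R, hR⟩ := coreZ hK hKc hp₀ ι π s hs he W (Z : Set E) hρ
    (fun X hX hXZ => hW X hX (fun h => hXZ (Finset.mem_coe.2 h))) V hV1
  obtain ⟨T, hT1, hT2⟩ := cover_of_dirs hK hKc
    ((W ×ˢ V).image (fun p => s p.2 + R • ι p.1) ∪ Z.image (fun z => p₀ - z)) (by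
      intro X hX
      by_cases hXZ : X ∈ Z
      · refine ⟨p₀ - X, Finset.mem_union_right _ (Finset.mem_image_of_mem _ hXZ), 1, one_pos, ?_⟩
        rw [one_smul, add_sub_cancel]
        exact hp₀
      · obtain ⟨w, hw, v, hv, h1⟩ := hR X hX (fun h => hXZ (Finset.mem_coe.1 h))
        exact ⟨_, Finset.mem_union_left _ (Finset.mem_image_of_mem _ (Finset.mk_mem_product hw hv)),
          h1⟩)
  refine ⟨T, hT1.trans ((Finset.card_union_le _ _).trans ?_), hT2⟩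
  refine add_le_add (Finset.card_image_le.trans ?_) Finset.card_image_le
  rw [Finset.card_product]
  exact Nat.mul_le_mul le_rfl hV

end general

/-- the closed tangent cone -/
def Tan {n : ℕ} (K : Set (Eu n)) (x : Eu n) : Set (Eu n) :=
  closure {v | ∃ ε : ℝ, 0 < ε ∧ x + ε • v ∈ K}

theorem Tan.nrm {n : ℕ} {K : Set (Eu n)} {x v : Eu n} (h : v ∈ Tan K x)
    {f : Eu n →L[ℝ] ℝ} (hf : Nrm K x f) : f v ≤ 0 := by
  have h1 : Tan K x ⊆ {v | f v ≤ 0} := by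
    refine closure_minimal ?_ (isClosed_le f.continuous continuous_const)
    rintro v ⟨ε, hε, h⟩
    have h2 := hf _ h
    rw [map_add, map_smul, smul_eq_mul] at h2
    show f v ≤ 0
    by_contra hcon
    push Not at hcon
    have : 0 < ε * f v := by positivity
    linarith
  exact h1 h

/-- The first form, for subspaces of `ℝ^n`. -/
theorem fibres {n m : ℕ} {K : Set (Eu n)} (hK : Bdy K) (L : Submodule ℝ (Eu n))
    (π : Eu n →L[ℝ] Eu m) (hπ : Function.Surjective π) (hker : ∀ x, π x = 0 ↔ x ∈ L)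
    (W : Finset (Eu n)) (hWL : ∀ w ∈ W, w ∈ L) (Z : Finset (Eu n)) {ρ : ℝ} (hρ : 0 < ρ)
    (hW : ∀ x ∈ K, x ∉ Z → ∃ w ∈ W, ∀ f, Nrm K x f → ∀ z ∈ L, ‖z‖ ≤ ρ → f (w + z) ≤ 0) (M : ℕ)
    (hM : Cov (π '' K) M) : Cov K (W.card * M + Z.card) := by
  classical
  obtain ⟨ι, hι⟩ := coords L rfl
  set W' : Finset (Eu (Module.finrank ℝ L)) := W.preimage ι ι.injective.injOn with hW'
  have hcard : W'.card ≤ W.card := by
    rw [← Finset.card_image_of_injective _ ι.injective]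
    refine Finset.card_le_card ?_
    intro x hx
    obtain ⟨u, hu, rfl⟩ := Finset.mem_image.1 hx
    exact Finset.mem_preimage.1 hu
  obtain ⟨T, hT1, hT2⟩ := boundZ hK.1 hK.2.1 hK.2.2 ι π (Function.surjInv hπ)
    (Function.surjInv_eq hπ) (fun y hy => by
      obtain ⟨u, hu⟩ := (hι y).1 ((hker y).1 hy)
      exact ⟨u, hu.symm⟩) W' Z hρ (fun X hX hXZ => by
      obtain ⟨w, hw, h1⟩ := hW X hX hXZ
      obtain ⟨u, hu⟩ := (hι w).1 (hWL w hw)
      refine ⟨u, Finset.mem_preimage.2 (hu ▸ hw), fun f hf z hz => ?_⟩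
      rw [map_add, hu]
      exact h1 f hf _ ((hι _).2 ⟨z, rfl⟩) (by rwa [ι.norm_map])) M hM
  exact ⟨T, hT1.trans (by gcongr), hT2⟩

/-- The second form: normal cones are contained in normal cones of `A`. -/
theorem fibres_rel {n m : ℕ} {K A : Set (Eu n)} (hK : Bdy K) (hA : Convex ℝ A) (hAc : IsCompact A)
    (hAn : A.Nonempty) (Z : Finset (Eu n))
    (href : ∀ x ∈ K, x ∉ Z → ∃ a ∈ A, ∀ f : Eu n →L[ℝ] ℝ, Nrm K x f → Nrm A a f)
    (π : Eu n →L[ℝ] Eu m) (hπ : Function.Surjective π)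
    (hker : ∀ x, π x = 0 ↔ x ∈ vectorSpan ℝ A) (N M : ℕ) (hN : RelCov A N)
    (hM : Cov (π '' K) M) : Cov K (N * M + Z.card) := by
  classical
  obtain ⟨a₀, ha⟩ := hAn
  obtain ⟨ι, hι⟩ := coords (vectorSpan ℝ A) (k := dim A) rfl
  have hι' : ∀ x ∈ vectorSpan ℝ A, ∃ u, ι u = x := fun x hx => (hι x).1 hx
  obtain ⟨W, hW, hW1⟩ := dirs_of_cover (cov_of_rel hι ha hN)
  have hL : Convex ℝ (Lset ι A a₀) := Lset_convex hA
  have hLc : IsCompact (Lset ι A a₀) := Lset_compact hι' ha hAc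
  obtain ⟨q, hq, hq1⟩ := unif hL hLc subset_rfl (fun w : W => (w : Eu (dim A))) (by
    intro x hx
    obtain ⟨v, hv, h1⟩ := hW1 x hx
    exact ⟨⟨v, hv⟩, h1⟩)
  obtain ⟨ρ, hρ, hρ1⟩ := depth hLc W q (fun y hy => by
    obtain ⟨w, hw⟩ := hq1 y hy
    exact ⟨w, w.2, hw⟩)
  obtain ⟨T, hT1, hT2⟩ := boundZ hK.1 hK.2.1 hK.2.2 ι π (Function.surjInv hπ)
    (Function.surjInv_eq hπ) (fun y hy => by
      obtain ⟨u, hu⟩ := hι' y ((hker y).1 hy)
      exact ⟨u, hu.symm⟩) (W.image fun w => q • w) Z hρ (fun X hX hXZ => by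
      obtain ⟨a, ha', h1⟩ := href X hX hXZ
      have h2 : a ∈ phi ι a₀ '' Lset ι A a₀ := by rw [phi_image hι' ha]; exact ha'
      obtain ⟨y, hy, rfl⟩ := h2
      obtain ⟨w, hw, h3⟩ := hρ1 y hy
      refine ⟨q • w, Finset.mem_image_of_mem _ hw, fun f hf z hz => ?_⟩
      have h4 := h1 f hf (a₀ + ι (y + q • w + z)) (h3 z hz)
      rw [phi_apply, add_assoc y, map_add ι y, map_add f, map_add f, map_add f] at h4
      linarith) M hM
  refine ⟨T, hT1.trans ?_, hT2⟩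
  gcongr
  exact Finset.card_image_le.trans hW

/-- The third form: the fibres are homothets of `A`, up to finitely many one-point fibres. -/
theorem fibres_homothets {n m : ℕ} {K A : Set (Eu n)} (hK : Bdy K) (hA : Convex ℝ A)
    (hAc : IsCompact A) (hAn : A.Nonempty) (Y : Finset (Eu m))
    (π : Eu n →L[ℝ] Eu m) (hπ : Function.Surjective π)
    (hker : ∀ x, π x = 0 ↔ x ∈ vectorSpan ℝ A)
    (hfib : ∀ y ∈ π '' K, y ∉ Y → ∃ (p : Eu n) (c : ℝ), 0 < c ∧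
      {x | x ∈ K ∧ π x = y} = (fun a => p + c • a) '' A)
    (hY : ∀ y ∈ Y, {x | x ∈ K ∧ π x = y}.Subsingleton)
    (N M : ℕ) (hN : RelCov A N) (hM : Cov (π '' K) M) : Cov K (N * M + Y.card) := by
  classical
  obtain ⟨p₀, hp₀⟩ := hK.2.2
  set Z : Finset (Eu n) := Y.image (fun y => if h : ∃ x, x ∈ K ∧ π x = y then h.choose else 0)
    with hZ
  obtain ⟨T, hT1, hT2⟩ := fibres_rel hK hA hAc hAn Z (fun x hx hxZ => by
    have hxY : π x ∉ Y := by
      intro h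
      apply hxZ
      refine Finset.mem_image.2 ⟨π x, h, ?_⟩
      have h1 : ∃ x', x' ∈ K ∧ π x' = π x := ⟨x, hx, rfl⟩
      rw [dif_pos h1]
      exact hY _ h h1.choose_spec ⟨hx, rfl⟩
    obtain ⟨p, c, hc, h1⟩ := hfib (π x) ⟨x, hx, rfl⟩ hxY
    obtain ⟨a, ha, hax⟩ : x ∈ (fun a => p + c • a) '' A := by
      rw [← h1]
      exact ⟨hx, rfl⟩
    refine ⟨a, ha, fun f hf b hb => ?_⟩
    have h2 : p + c • b ∈ {x' | x' ∈ K ∧ π x' = π x} := by
      rw [h1]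
      exact ⟨b, hb, rfl⟩
    have h3 := hf _ h2.1
    rw [← hax] at h3
    simp only [map_add, map_smul, smul_eq_mul] at h3
    have h4 : c * f b ≤ c * f a := by linarith
    exact le_of_mul_le_mul_left h4 hc) π hπ hker N M hN hM
  exact ⟨T, hT1.trans (by gcongr; exact Finset.card_image_le), hT2⟩

end Pool.Agent.Zk33.NF
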