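import Pool.Agent.Zk33.NF.Classes

set_option autoImplicit false
set_option linter.unusedSectionVars false

/-!
Closed classes: hulls of few sets of small dimension and ellipsoids.
-/

open Set Topology
open scoped Pointwise
open TopologicalSpace (NonemptyCompacts)
open Pool.Agent.H843R3.Had2 Pool.Agent.W677.Shadow Pool.Agent.W677.Summand

namespace Pool.Agent.Zk33.NF

variable {n : ℕ}

/-- closed under limits -/
def LimClosed (Q : Set (Set (Eu n))) : Prop :=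
  ∀ A : Set (Eu n), IsCompact A → A.Nonempty → (∀ ε : ℝ, 0 < ε → ∃ S ∈ Q, Near ε A S) → A ∈ Q

/-- nonempty compact convex sets -/
def Cpt (S : Set (Eu n)) : Prop := Convex ℝ S ∧ IsCompact S ∧ S.Nonempty

theorem limClosed_iUnion {κ : Type*} [Finite κ] {Q : κ → Set (Set (Eu n))}
    (h : ∀ k, LimClosed (Q k)) : LimClosed (⋃ k, Q k) := by
  classical
  have := Fintype.ofFinite κ
  intro A hA hAn hlim
  by_contra hcon
  have h1 : ∀ k, ∃ ε : ℝ, 0 < ε ∧ ∀ S ∈ Q k, ¬ Near ε A S := by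
    intro k
    by_contra hcon2
    push Not at hcon2
    exact hcon (mem_iUnion.2 ⟨k, h k A hA hAn hcon2⟩)
  choose e he0 he using h1
  obtain ⟨e₀, he₀, h2⟩ := pos_min Finset.univ e (fun k _ => he0 k)
  obtain ⟨S, hS, h3⟩ := hlim e₀ he₀
  obtain ⟨k, hk⟩ := mem_iUnion.1 hS
  exact he k S hk (h3.mono (h2 k (Finset.mem_univ k)))

theorem limClosed_union {Q Q' : Set (Set (Eu n))} (h : LimClosed Q) (h' : LimClosed Q') :
    LimClosed (Q ∪ Q') := by
  rw [union_eq_iUnion]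
  exact limClosed_iUnion fun b => by cases b <;> assumption

theorem limClosed_dim (m : ℕ) : LimClosed {S : Set (Eu n) | Cpt S ∧ dim S ≤ m} := by
  intro A hA hAn hlim
  refine ⟨⟨convex_of_near hA.isClosed fun ε hε => ?_, hA, hAn⟩, dim_limit hAn fun ε hε => ?_⟩
  · obtain ⟨S, hS, h1⟩ := hlim ε hε
    exact ⟨S, hS.1.1, h1⟩
  · obtain ⟨S, hS, h1⟩ := hlim ε hε
    exact ⟨S, hS.2, h1⟩

/-- ellipsoids of dimension at most `d` -/
def Ell (d : ℕ) (S : Set (Eu n)) : Prop := ∃ f : Eu d →ᵃ[ℝ] Eu n, S = f '' B d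

theorem Ell.cpt {d : ℕ} {S : Set (Eu n)} (h : Ell d S) : Cpt S := by
  obtain ⟨f, rfl⟩ := h
  exact ⟨(convex_closedBall (0 : Eu d) 1).affine_image f,
    (isCompact_closedBall (0 : Eu d) 1).image (affine_cont f),
    (Metric.nonempty_closedBall.2 zero_le_one).image _⟩

theorem ell_iff {d : ℕ} {S : Set (Eu n)} : Ell d S ↔ EH (r := 1) (fun _ => d) S := by
  constructor
  · intro h
    obtain ⟨f, rfl⟩ := h
    refine ⟨fun _ => f, ?_⟩
    rw [iUnion_const, ((convex_closedBall (0 : Eu d) 1).affine_image f).convexHull_eq]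
  · rintro ⟨f, rfl⟩
    refine ⟨f 0, ?_⟩
    have h1 : (⋃ i : Fin 1, f i '' B d) = f 0 '' B d := by
      ext x
      rw [mem_iUnion]
      constructor
      · rintro ⟨i, hi⟩
        have : i = 0 := Subsingleton.elim _ _
        rwa [this] at hi
      · intro h
        exact ⟨0, h⟩
    rw [h1, ((convex_closedBall (0 : Eu d) 1).affine_image (f 0)).convexHull_eq]

theorem limClosed_ell (d : ℕ) : LimClosed {S : Set (Eu n) | Ell d S} := by
  intro A hA _ hlim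
  refine ell_iff.2 (EH.limit hA fun ε hε => ?_)
  obtain ⟨S, hS, h1⟩ := hlim ε hε
  exact ⟨S, ell_iff.1 hS, h1⟩

theorem Ell.image {d m : ℕ} {S : Set (Eu n)} (h : Ell d S) (g : Eu n →ᵃ[ℝ] Eu m) :
    Ell d (g '' S) := by
  obtain ⟨f, rfl⟩ := h
  exact ⟨g.comp f, by rw [image_image]; rfl⟩

theorem Ell.reduce {d : ℕ} {S : Set (Eu n)} (h : Ell d S) : ∃ e ≤ d, e ≤ n ∧ Ell e S := by
  obtain ⟨f, rfl⟩ := h
  obtain ⟨e, g, h1, h2, h3⟩ := ball_reduce f
  exact ⟨e, h1, h2, g, h3⟩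

/-- `F` is a piece of weight `w`. -/
def Piece (m w : ℕ) (F : Set (Eu n)) : Prop :=
  (Cpt F ∧ ∃ j ≤ m, dim F ≤ j ∧ w = 2 ^ j) ∨ ∃ d, Ell d F ∧ w = min (d + 1) (m + 2)

theorem Piece.cpt {m w : ℕ} {F : Set (Eu n)} (h : Piece m w F) : Cpt F := by
  rcases h with h | ⟨d, h, _⟩
  · exact h.1
  · exact h.cpt

theorem Cpt.image {m : ℕ} {S : Set (Eu n)} (h : Cpt S) (f : Eu n →ᵃ[ℝ] Eu m) : Cpt (f '' S) :=
  ⟨h.1.affine_image f, h.2.1.image (affine_cont f), h.2.2.image _⟩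

theorem Piece.image {m w k : ℕ} {F : Set (Eu n)} (h : Piece m w F) (g : Eu n →ᵃ[ℝ] Eu k) :
    Piece m w (g '' F) := by
  rcases h with ⟨h, j, hj, h1, h2⟩ | ⟨d, h, h1⟩
  · exact Or.inl ⟨h.image g, j, hj, (dim_image g F).trans h1, h2⟩
  · exact Or.inr ⟨d, h.image g, h1⟩

/-- weights of pieces, in a weak form -/
def WPiece (m w : ℕ) (F : Set (Eu n)) : Prop :=
  (Cpt F ∧ ∃ j ≤ m, dim F ≤ j ∧ 2 ^ j ≤ w) ∨ ∃ d ≤ n, Ell d F ∧ min (d + 1) (m + 2) ≤ w

theorem Piece.weak {m w : ℕ} {F : Set (Eu n)} (h : Piece m w F) : WPiece m w F := by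
  rcases h with ⟨h, j, hj, h1, h2⟩ | ⟨d, h, h1⟩
  · exact Or.inl ⟨h, j, hj, h1, h2.ge⟩
  · obtain ⟨e, he, he', h2⟩ := h.reduce
    refine Or.inr ⟨e, he', h2, ?_⟩
    rw [h1]
    exact min_le_min_right _ (by omega)

theorem WPiece.cpt {m w : ℕ} {F : Set (Eu n)} (h : WPiece m w F) : Cpt F := by
  rcases h with h | ⟨d, _, h, _⟩
  · exact h.1
  · exact h.cpt

theorem WPiece.image {m w k : ℕ} {F : Set (Eu n)} (h : WPiece m w F) (g : Eu n →ᵃ[ℝ] Eu k) :
    WPiece m w (g '' F) := by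
  rcases h with ⟨h, j, hj, h1, h2⟩ | ⟨d, _, h, h1⟩
  · exact Or.inl ⟨h.image g, j, hj, (dim_image g F).trans h1, h2⟩
  · obtain ⟨e, he, he', h2⟩ := (h.image g).reduce
    exact Or.inr ⟨e, he', h2, (min_le_min_right _ (by omega)).trans h1⟩

theorem limClosed_wpiece (m w : ℕ) : LimClosed {S : Set (Eu n) | WPiece m w S} := by
  have h1 : {S : Set (Eu n) | WPiece m w S} =
      (⋃ j : {j : Fin (m + 1) // 2 ^ (j : ℕ) ≤ w}, {S : Set (Eu n) | Cpt S ∧ dim S ≤ (j : Fin (m + 1))})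
      ∪ ⋃ d : {d : Fin (n + 1) // min ((d : ℕ) + 1) (m + 2) ≤ w},
        {S : Set (Eu n) | Ell ((d : Fin (n + 1)) : ℕ) S} := by
    ext S
    simp only [mem_union, mem_iUnion]
    constructor
    · rintro (⟨h, j, hj, h1, h2⟩ | ⟨d, hd, h, h1⟩)
      · exact Or.inl ⟨⟨⟨j, by omega⟩, h2⟩, h, h1⟩
      · exact Or.inr ⟨⟨⟨d, by omega⟩, h1⟩, h⟩
    · rintro (⟨⟨j, h2⟩, h, h1⟩ | ⟨⟨d, h1⟩, h⟩)
      · exact Or.inl ⟨h, j, by omega, h1, h2⟩
      · exact Or.inr ⟨d, by omega, h, h1⟩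
  rw [h1]
  exact limClosed_union (limClosed_iUnion fun j => limClosed_dim _)
    (limClosed_iUnion fun d => limClosed_ell _)

/-- hulls of members of given classes -/
def HullOf {r : ℕ} (Q : Fin r → Set (Set (Eu n))) : Set (Set (Eu n)) :=
  {S | ∃ F : Fin r → Set (Eu n), (∀ i, F i ∈ Q i) ∧ S = convexHull ℝ (⋃ i, F i)}

theorem near_iUnion {E : Type*} [NormedAddCommGroup E] [NormedSpace ℝ E] {r : ℕ} {δ : ℝ}
    {F G : Fin r → Set E} (h : ∀ i, Near δ (F i) (G i)) : Near δ (⋃ i, F i) (⋃ i, G i) := by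
  constructor
  · intro x hx
    obtain ⟨i, hi⟩ := mem_iUnion.1 hx
    obtain ⟨y, hy, h1⟩ := (h i).1 x hi
    exact ⟨y, mem_iUnion.2 ⟨i, hy⟩, h1⟩
  · intro x hx
    obtain ⟨i, hi⟩ := mem_iUnion.1 hx
    obtain ⟨y, hy, h1⟩ := (h i).2 x hi
    exact ⟨y, mem_iUnion.2 ⟨i, hy⟩, h1⟩

theorem hull_cpt {r : ℕ} (hr : 0 < r) {F : Fin r → Set (Eu n)} (hF : ∀ i, Cpt (F i)) :
    Cpt (convexHull ℝ (⋃ i, F i)) := by
  refine ⟨convex_convexHull _ _, ?_, ?_⟩
  · rw [Pool.Agent.R753.HS.hull_eq_comb (fun i => (hF i).1) (fun i => (hF i).2.2)]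
    exact Pool.Agent.R753.HS.comb_compact fun i => (hF i).2.1
  · obtain ⟨x, hx⟩ := (hF ⟨0, hr⟩).2.2
    exact ⟨x, subset_convexHull ℝ _ (mem_iUnion.2 ⟨_, hx⟩)⟩

theorem limClosed_hull {r : ℕ} (hr : 0 < r) {Q : Fin r → Set (Set (Eu n))}
    (hQ : ∀ i, ∀ S ∈ Q i, Cpt S) (h : ∀ i, LimClosed (Q i)) : LimClosed (HullOf Q) := by
  classical
  intro A hA hAn hlim
  obtain ⟨R, hR⟩ := hA.isBounded.subset_closedBall 0
  have hR' : ∀ x ∈ A, ‖x‖ ≤ R := fun x hx => mem_closedBall_zero_iff.1 (hR hx)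
  have h1 : ∀ k : ℕ, ∃ L : Fin r → NonemptyCompacts (Eu n),
      (∀ i, (L i : Set (Eu n)) ∈ Q i ∧ (L i : Set (Eu n)) ⊆ Metric.closedBall 0 (R + 1)) ∧
      Near (1 / ((k : ℝ) + 1)) A (convexHull ℝ (⋃ i, (L i : Set (Eu n)))) := by
    intro k
    obtain ⟨S, ⟨F, hF, rfl⟩, h2⟩ := hlim (1 / ((k : ℝ) + 1)) (by positivity)
    refine ⟨fun i => ⟨⟨F i, (hQ i _ (hF i)).2.1⟩, (hQ i _ (hF i)).2.2⟩, fun i => ⟨hF i, ?_⟩, h2⟩
    intro x hx
    obtain ⟨y, hy, h3⟩ := h2.2 x (subset_convexHull ℝ _ (mem_iUnion.2 ⟨i, hx⟩))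
    have h4 := hR' y hy
    have h5 : ‖x‖ ≤ ‖y‖ + dist y x := by
      rw [dist_eq_norm, ← norm_neg (y - x)]
      have : x = y + -(y - x) := by abel
      nth_rewrite 1 [this]
      exact norm_add_le _ _
    have h6 : 1 / ((k : ℝ) + 1) ≤ 1 := by
      rw [div_le_one (by positivity)]
      have : (0 : ℝ) ≤ k := by positivity
      linarith
    rw [mem_closedBall_zero_iff]
    linarith
  choose L hL1 hL2 using h1
  have hcomp : IsCompact (Set.pi univ (fun _ : Fin r =>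
      {T : NonemptyCompacts (Eu n) | (T : Set (Eu n)) ⊆ Metric.closedBall 0 (R + 1)})) :=
    isCompact_univ_pi fun _ =>
      NonemptyCompacts.isCompact_subsets_of_isCompact (isCompact_closedBall (0 : Eu n) (R + 1))
  obtain ⟨M, hM, φ, hφ, hconv⟩ := hcomp.tendsto_subseq (x := L)
    (fun k i _ => (hL1 k i).2)
  have hnear : ∀ ε : ℝ, 0 < ε → ∀ᶠ k in Filter.atTop, ∀ i,
      Near ε (M i : Set (Eu n)) (L (φ k) i : Set (Eu n)) := by
    intro ε hε
    have h2 := (tendsto_iff_dist_tendsto_zero.1 hconv).eventually_lt_const hε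
    filter_upwards [h2] with k hk i
    refine near_of_dist ?_
    rw [dist_comm]
    exact (dist_le_pi_dist (L (φ k)) M i).trans_lt hk
  refine ⟨fun i => M i, fun i => ?_, ?_⟩
  · refine h i _ (M i).isCompact (M i).nonempty fun ε hε => ?_
    obtain ⟨k, hk⟩ := (hnear ε hε).exists
    exact ⟨_, (hL1 (φ k) i).1, hk i⟩
  · have hMc : ∀ i, Cpt (M i : Set (Eu n)) := by
      intro i
      refine hQ i _ (h i _ (M i).isCompact (M i).nonempty fun ε hε => ?_)
      obtain ⟨k, hk⟩ := (hnear ε hε).exists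
      exact ⟨_, (hL1 (φ k) i).1, hk i⟩
    refine eq_of_near hA.isClosed (hull_cpt hr hMc).2.1.isClosed fun ε hε => ?_
    have e2 : ∀ᶠ k in Filter.atTop, 1 / ((φ k : ℝ) + 1) < ε / 2 := by
      have := tendsto_one_div_add_atTop_nhds_zero_nat (𝕜 := ℝ) |>.comp hφ.tendsto_atTop
      exact this.eventually_lt_const (by positivity)
    obtain ⟨k, hk1, hk2⟩ := ((hnear (ε / 2) (by positivity)).and e2).exists
    exact ((hL2 (φ k)).trans (near_iUnion hk1).symm.hull).mono (by linarith)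

/-- The class: hulls of finitely many pieces of total weight at most `2 ^ (m + 1)`. -/
def Cls (m n : ℕ) : Set (Set (Eu n)) :=
  {S | ∃ (r : ℕ) (w : Fin r → ℕ), 0 < r ∧ ∑ i, w i ≤ 2 ^ (m + 1) ∧
    ∃ F : Fin r → Set (Eu n), (∀ i, WPiece m (w i) (F i)) ∧ S = convexHull ℝ (⋃ i, F i)}

theorem wpos {m w : ℕ} {F : Set (Eu n)} (h : WPiece m w F) : 1 ≤ w := by
  rcases h with ⟨_, j, _, _, h2⟩ | ⟨d, _, _, h1⟩
  · exact Nat.one_le_two_pow.trans h2
  · exact le_trans (by omega) h1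

theorem limClosed_cls (m : ℕ) : LimClosed (Cls m n) := by
  classical
  -- finitely many patterns
  let κ : Type := {p : Σ r : Fin (2 ^ (m + 1) + 1), (Fin r → Fin (2 ^ (m + 1) + 1)) //
    0 < (p.1 : ℕ) ∧ ∑ i, (p.2 i : ℕ) ≤ 2 ^ (m + 1)}
  have h1 : Cls m n = ⋃ p : κ, HullOf (fun i => {S : Set (Eu n) | WPiece m (p.1.2 i) S}) := by
    ext S
    rw [mem_iUnion]
    constructor
    · rintro ⟨r, w, hr, hw, F, hF, rfl⟩
      have hr' : r ≤ 2 ^ (m + 1) := by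
        calc r = ∑ i : Fin r, 1 := by simp
          _ ≤ ∑ i, w i := Finset.sum_le_sum fun i _ => wpos (hF i)
          _ ≤ _ := hw
      have hw' : ∀ i, w i ≤ 2 ^ (m + 1) := fun i =>
        (Finset.single_le_sum (f := w) (fun _ _ => Nat.zero_le _) (Finset.mem_univ i)).trans hw
      exact ⟨⟨⟨⟨r, by omega⟩, fun i => ⟨w i, by have := hw' i; omega⟩⟩, hr, hw⟩, F, hF, rfl⟩
    · rintro ⟨⟨⟨r, w⟩, hr, hw⟩, F, hF, rfl⟩
      exact ⟨r, fun i => w i, hr, hw, F, hF, rfl⟩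
  rw [h1]
  exact limClosed_iUnion fun p => limClosed_hull p.2.1 (fun i S hS => WPiece.cpt hS)
    fun i => limClosed_wpiece m _

theorem ball_smooth (d : ℕ) : Pool.Agent.R753.HS.Smooth (B d) := by
  intro x hx u v hu hv h1 h2
  have key : ∀ u : Eu d, u ≠ 0 → (∀ y ∈ B d, inner ℝ u y ≤ inner ℝ u x) → u = ‖u‖ • x := by
    intro u hu h
    have hu0 : 0 < ‖u‖ := norm_pos_iff.2 hu
    have h3 := h ((1 / ‖u‖) • u) (by
      rw [mem_closedBall_zero_iff, norm_smul, Real.norm_eq_abs, abs_of_pos (by positivity)]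
      field_simp
      rfl)
    rw [inner_smul_right, real_inner_self_eq_norm_sq] at h3
    have h4 : 1 / ‖u‖ * ‖u‖ ^ 2 = ‖u‖ := by field_simp
    rw [h4] at h3
    have hx1 : ‖x‖ ≤ 1 := mem_closedBall_zero_iff.1 hx
    have h5 : ‖u - ‖u‖ • x‖ ^ 2 ≤ 0 := by
      rw [norm_sub_sq_real, inner_smul_right, norm_smul, norm_norm]
      have h6 : ‖x‖ ^ 2 ≤ 1 := by nlinarith [norm_nonneg x]
      have h7 : ‖u‖ ^ 2 * ‖x‖ ^ 2 ≤ ‖u‖ ^ 2 := by nlinarith [sq_nonneg ‖u‖]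
      nlinarith
    have h6 : ‖u - ‖u‖ • x‖ = 0 := by
      have := sq_nonneg ‖u - ‖u‖ • x‖
      exact pow_eq_zero_iff (two_ne_zero) |>.1 (le_antisymm h5 this)
    exact sub_eq_zero.1 (norm_eq_zero.1 h6)
  have hu1 := key u hu h1
  have hv1 := key v hv h2
  have hu0 : 0 < ‖u‖ := norm_pos_iff.2 hu
  have hv0 : 0 < ‖v‖ := norm_pos_iff.2 hv
  refine ⟨‖v‖ / ‖u‖, by positivity, ?_⟩
  have h3 : (‖v‖ / ‖u‖) • (‖u‖ • x) = ‖v‖ • x := by
    rw [smul_smul, div_mul_cancel₀ _ hu0.ne']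
  rw [← hu1] at h3
  rw [h3]
  exact hv1

theorem pow_bound (m k : ℕ) : m + 2 + k + 1 ≤ (m + 2) * 2 ^ (k + 1) := by
  have h1 : k + 2 ≤ 2 ^ (k + 1) := by
    induction k with
    | zero => norm_num
    | succ k ih => rw [pow_succ]; omega
  nlinarith

/-- The class is good if the conjecture is true up to dimension `m`. -/
theorem good_cls {m : ℕ} (hm : ∀ d ≤ m, ∀ K : Set (Eu d), Bdy K → Cov K (2 ^ d)) :
    Good (Cls m) where
  basic n S := by
    rintro ⟨r, w, hr, -, F, hF, rfl⟩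
    exact hull_cpt hr fun i => (hF i).cpt
  image n k f S := by
    rintro ⟨r, w, hr, hw, F, hF, rfl⟩
    refine ⟨r, w, hr, hw, fun i => f '' F i, fun i => (hF i).image f, ?_⟩
    rw [AffineMap.image_convexHull, image_iUnion]
  limit n := limClosed_cls m
  cover n S := by
    classical
    rintro ⟨r, w, hr, hw, F, hF, rfl⟩ hi
    have hcpt := hull_cpt hr fun i => (hF i).cpt
    rcases Nat.lt_or_ge m n with hn | hn
    · -- the pieces
      have key : ∀ i, ∃ (d : ℕ) (f : Eu d →ᵃ[ℝ] Eu n) (C : Set (Eu d)) (N : ℕ), Bdy C ∧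
          F i = f '' C ∧ Cov C N ∧ (m + 2) * N ≤ (n + 1) * w i := by
        intro i
        rcases hF i with ⟨h, j, hj, h1, h2⟩ | ⟨d, hd, ⟨f, hf⟩, h1⟩
        · obtain ⟨hc, hk, a₀, ha₀⟩ := h
          obtain ⟨ι, hι⟩ := coords (vectorSpan ℝ (F i)) (k := dim (F i)) rfl
          have hι' : ∀ x ∈ vectorSpan ℝ (F i), ∃ u, ι u = x := fun x hx => (hι x).1 hx
          have hb : Bdy (Lset ι (F i) a₀) :=
            ⟨Lset_convex hc, Lset_compact hι' ha₀ hk, Lset_int hι ha₀ hc⟩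
          refine ⟨dim (F i), (phi ι a₀).toAffineMap, Lset ι (F i) a₀, 2 ^ dim (F i), hb,
            (phi_image hι' ha₀).symm, hm _ (h1.trans hj) _ hb, ?_⟩
          have h3 : 2 ^ dim (F i) ≤ w i := (Nat.pow_le_pow_right (by norm_num) h1).trans h2
          nlinarith
        · refine ⟨d, f, B d, d + 1, ⟨convex_closedBall _ _, isCompact_closedBall _ _, ?_⟩, hf,
            Pool.Agent.R753.HS.smooth_cover (convex_closedBall _ _) (isCompact_closedBall _ _) ?_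
              (ball_smooth d), ?_⟩
          · rw [interior_closedBall _ one_ne_zero]
            exact Metric.nonempty_ball.2 one_pos
          · rw [interior_closedBall _ one_ne_zero]
            exact Metric.nonempty_ball.2 one_pos
          · rcases le_total (d + 1) (m + 2) with h3 | h3
            · rw [min_eq_left h3] at h1
              nlinarith
            · rw [min_eq_right h3] at h1
              nlinarith
      choose d f C N hC hfC hN hw' using key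
      have h3 : (⋃ i, F i) = ⋃ i, f i '' C i := iUnion_congr hfC
      obtain ⟨T, hT, hcov⟩ := (Pool.Agent.R753.HS.hulls f C (fun i => (hC i).1)
        (fun i => (hC i).2.1) (fun i => (hC i).2.2) (by rw [h3]) hi).2.2 N hN
      refine ⟨T, hT.trans ?_, hcov⟩
      have h4 : (m + 2) * ∑ i, N i ≤ (n + 1) * 2 ^ (m + 1) := by
        rw [Finset.mul_sum]
        calc ∑ i, (m + 2) * N i ≤ ∑ i, (n + 1) * w i := Finset.sum_le_sum fun i _ => hw' i
          _ = (n + 1) * ∑ i, w i := by rw [Finset.mul_sum]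
          _ ≤ _ := Nat.mul_le_mul_left _ hw
      obtain ⟨k, rfl⟩ : ∃ k, n = m + 1 + k := ⟨n - (m + 1), by omega⟩
      have h5 : m + 1 + k + 1 ≤ (m + 2) * 2 ^ k := by
        have : k + 1 ≤ 2 ^ k := by
          induction k with
          | zero => norm_num
          | succ k _ => exact Nat.lt_two_pow_self
        nlinarith
      have h6 : (m + 1 + k + 1) * 2 ^ (m + 1) ≤ (m + 2) * 2 ^ (m + 1 + k) := by
        rw [pow_add 2 (m + 1) k]
        calc (m + 1 + k + 1) * 2 ^ (m + 1) ≤ ((m + 2) * 2 ^ k) * 2 ^ (m + 1) :=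
              Nat.mul_le_mul_right _ h5
          _ = (m + 2) * (2 ^ (m + 1) * 2 ^ k) := by ring
      exact Nat.le_of_mul_le_mul_left (h4.trans h6) (by omega)
    · exact hm n hn _ ⟨hcpt.1, hcpt.2.1, hi⟩

end Pool.Agent.Zk33.NF
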