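import Pool.Agent.Zk33.NF.Pigeon

set_option autoImplicit false
set_option linter.unusedSectionVars false

/-!
Limits of sums of members of a closed class.
-/

open Set Topology
open scoped Pointwise
open Pool.Agent.H843R3.Had2 Pool.Agent.W677.Shadow Pool.Agent.W677.Summand

namespace Pool.Agent.Zk33.NF

/-- images of convex bodies -/
theorem body_image {n m : ℕ} {K : Set (Eu n)} (hK : Bdy K) (π : Eu n →L[ℝ] Eu m)
    (hπ : Function.Surjective π) : Bdy (π '' K) := by
  obtain ⟨h1, h2, h3⟩ := hK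
  refine ⟨h1.linear_image π.toLinearMap, h2.image π.continuous, ?_⟩
  have h4 : π '' (interior K) ⊆ interior (π '' K) :=
    interior_maximal (Set.image_mono interior_subset)
      (ContinuousLinearMap.isOpenMap _ hπ _ isOpen_interior)
  exact (h3.image π).mono h4

/-- `A` is covered by at most `N` translates of its relative interior. -/
def RelCov {n : ℕ} (A : Set (Eu n)) (N : ℕ) : Prop :=
  ∃ T : Finset (Eu n), T.card ≤ N ∧ A ⊆ ⋃ t ∈ T, (fun x => t + x) '' intrinsicInterior ℝ A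

/-- The dimension of (the affine hull of) `A`. -/
noncomputable def dim {n : ℕ} (A : Set (Eu n)) : ℕ := Module.finrank ℝ (vectorSpan ℝ A)

/-- `c(K) ≤ c(A) c(π K)` if the normal cones of `K` are contained in normal cones of `A`. -/
theorem bound_rel {n m : ℕ} {K A : Set (Eu n)} (hK : Bdy K) (hA : Convex ℝ A) (hAc : IsCompact A)
    (href : Refines K A) (π : Eu n →L[ℝ] Eu m) (hπ : Function.Surjective π)
    (hker : ∀ x, π x = 0 ↔ x ∈ vectorSpan ℝ A) (N M : ℕ) (hN : RelCov A N)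
    (hM : Cov (π '' K) M) : Cov K (N * M) := by
  obtain ⟨a₀, ha₀⟩ : A.Nonempty := by
    obtain ⟨x, hx⟩ := hK.2.2
    obtain ⟨a, ha, _⟩ := href x (interior_subset hx)
    exact ⟨a, ha⟩
  obtain ⟨ι, hι⟩ := coords (vectorSpan ℝ A) (k := dim A) rfl
  exact bound hι ha₀ hAc hK.1 hK.2.1 hK.2.2 hA href π (Function.surjInv hπ)
      (Function.surjInv_eq hπ) (fun y hy => (hker y).1 hy) N M (cov_of_rel hι ha₀ hN) hM

theorem dim_le {n : ℕ} (A : Set (Eu n)) : dim A ≤ n := by
  have := Submodule.finrank_le (vectorSpan ℝ A)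
  rwa [finrank_euclideanSpace, Fintype.card_fin] at this

theorem dim_pos {n : ℕ} {A : Set (Eu n)} (hA : IsCompact A) (hAn : A.Nonempty) (h : 0 < size A) :
    0 < dim A := by
  by_contra hcon
  have h0 : dim A = 0 := by omega
  have h1 : vectorSpan ℝ A = ⊥ := Submodule.finrank_eq_zero.1 h0
  obtain ⟨a, ha⟩ := hAn
  have h2 : A = {a} := by
    refine subset_antisymm (fun x hx => ?_) (singleton_subset_iff.2 ha)
    have h3 := vsub_mem_vectorSpan ℝ hx ha
    rw [h1, Submodule.mem_bot, vsub_eq_sub, sub_eq_zero] at h3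
    exact h3
  rw [h2, size_singleton] at h
  exact lt_irrefl _ h

theorem size_pos {n : ℕ} {K : Set (Eu n)} (hn : 0 < n) (hK : Bdy K) : 0 < size K := by
  obtain ⟨p, hp⟩ := hK.2.2
  refine lt_of_le_of_ne (size_nonneg hK.2.1 ⟨p, interior_subset hp⟩) fun h => ?_
  have h1 := eq_singleton_of_size hK.2.1 h.symm (interior_subset hp)
  obtain ⟨ε, hε, h2⟩ := Co.of_interior hp (EuclideanSpace.single (⟨0, hn⟩ : Fin n) (1 : ℝ))
  have h3 := interior_subset h2
  rw [h1, mem_singleton_iff, add_eq_left, smul_eq_zero] at h3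
  rcases h3 with h3 | h3
  · exact hε.ne' h3
  · have := congrArg (fun x : Eu n => x ⟨0, hn⟩) h3
    simp at this

/-- A class of compact convex sets of all dimensions which is closed under affine maps and limits
and whose members with interior points satisfy the conjecture. -/
structure Good (C : ∀ n : ℕ, Set (Set (Eu n))) : Prop where
  basic : ∀ n, ∀ S ∈ C n, Convex ℝ S ∧ IsCompact S ∧ S.Nonempty
  image : ∀ (n m : ℕ) (f : Eu n →ᵃ[ℝ] Eu m), ∀ S ∈ C n, f '' S ∈ C m
  limit : ∀ (n : ℕ) (A : Set (Eu n)), IsCompact A → A.Nonempty →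
    (∀ ε : ℝ, 0 < ε → ∃ S ∈ C n, Near ε A S) → A ∈ C n
  cover : ∀ n, ∀ S ∈ C n, (interior S).Nonempty → Cov S (2 ^ n)

theorem Good.Lset_mem {C : ∀ n : ℕ, Set (Set (Eu n))} (hC : Good C) {n k : ℕ} {A : Set (Eu n)}
    {a₀ : Eu n} {ι : Eu k →ₗᵢ[ℝ] Eu n} (hι : ∀ x, x ∈ vectorSpan ℝ A ↔ ∃ u, ι u = x) (ha : a₀ ∈ A)
    (hA : A ∈ C n) : Lset ι A a₀ ∈ C k := by
  obtain ⟨q, hq⟩ := ι.toLinearMap.exists_leftInverse_of_injective
    (LinearMap.ker_eq_bot.2 ι.injective)
  have hq' : ∀ u, q (ι u) = u := fun u => LinearMap.congr_fun hq u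
  have h1 := hC.image n k (q.toAffineMap - AffineMap.const ℝ (Eu n) (q a₀)) A hA
  have h2 : (q.toAffineMap - AffineMap.const ℝ (Eu n) (q a₀) : Eu n →ᵃ[ℝ] Eu k) '' A =
      Lset ι A a₀ := by
    ext u
    constructor
    · rintro ⟨x, hx, rfl⟩
      obtain ⟨v, hv⟩ := (hι _).1 (vsub_mem_vectorSpan ℝ hx ha)
      have h3 : (q.toAffineMap - AffineMap.const ℝ (Eu n) (q a₀) : Eu n →ᵃ[ℝ] Eu k) x = v := by
        show q x - q a₀ = v
        rw [← map_sub, ← hq' v, hv]
        rfl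
      rw [h3]
      show a₀ + ι v ∈ A
      rw [hv, vsub_eq_sub, add_sub_cancel]
      exact hx
    · intro hu
      refine ⟨a₀ + ι u, hu, ?_⟩
      show q (a₀ + ι u) - q a₀ = u
      rw [map_add, hq', add_sub_cancel_left]
  rwa [h2] at h1

/-- `K` is the limit of sums of members of the class. -/
def LimSum {n : ℕ} (C : Set (Set (Eu n))) (K : Set (Eu n)) : Prop :=
  ∀ ε : ℝ, 0 < ε → ∃ (k : ℕ) (S : Fin k → Set (Eu n)), (∀ i, S i ∈ C) ∧ Near ε K (∑ i, S i)

theorem LimSum.image {C : ∀ n : ℕ, Set (Set (Eu n))} (hC : Good C) {n m : ℕ} {K : Set (Eu n)}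
    (h : LimSum (C n) K) (π : Eu n →L[ℝ] Eu m) : LimSum (C m) (π '' K) := by
  intro ε hε
  obtain ⟨k, S, hS, h1⟩ := h (ε / (‖π‖ + 1)) (by positivity)
  refine ⟨k, fun i => π '' S i, fun i => ?_, ?_⟩
  · exact hC.image n m (π.toLinearMap.toAffineMap) _ (hS i)
  · have h2 := h1.image π
    rw [Set.image_finsetSum] at h2
    refine h2.mono ?_
    rw [mul_div_assoc', div_le_iff₀ (by positivity)]
    nlinarith [norm_nonneg π]

/-- **The theorem on limits of sums.** -/
theorem limit_of_sums {C : ∀ n : ℕ, Set (Set (Eu n))} (hC : Good C) (n : ℕ) :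
    ∀ K : Set (Eu n), Bdy K → LimSum (C n) K → Cov K (2 ^ n) := by
  induction n using Nat.strong_induction_on with
  | _ n ih =>
  intro K hK hlim
  rcases Nat.eq_zero_or_pos n with rfl | hn
  · exact body_le_two (by omega) hK
  obtain ⟨A, hA, hA0, hinf⟩ := exists_summand (hC.basic n) (fun S hS c p =>
      hC.image n n (c • AffineMap.id ℝ (Eu n) + AffineMap.const ℝ (Eu n) p) S hS |> fun h => by
        convert h using 1
        refine image_congr fun x _ => ?_
        simp [add_comm]) (hC.limit n) hK.2.1 (hK.2.2.mono interior_subset) (size_pos hn hK) hlim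
  obtain ⟨hA1, hA2, hA3⟩ := hC.basic n A hA
  have hd := dim_pos hA2 hA3 hA0
  have hdn := dim_le A
  obtain ⟨m, hm⟩ : ∃ m, dim A + m = n := ⟨n - dim A, by omega⟩
  obtain ⟨p, hp, hker⟩ := quot (vectorSpan ℝ A) (m := m) hm
  obtain ⟨a₀, ha₀⟩ := hA3
  obtain ⟨ι, hι⟩ := coords (vectorSpan ℝ A) (k := dim A) rfl
  have h1 := bound hι ha₀ hA2 hK.1 hK.2.1 hK.2.2 hA1 (hinf.refines hA2) p (Function.surjInv hp)
    (Function.surjInv_eq hp) (fun y hy => (hker y).1 hy) (2 ^ dim A) (2 ^ m)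
    (hC.cover _ _ (hC.Lset_mem hι ha₀ hA) (Lset_int hι ha₀ hA1))
    (ih m (by omega) _ (body_image hK p hp) (hlim.image hC p))
  rwa [← pow_add, hm] at h1

end Pool.Agent.Zk33.NF
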