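import Pool.Agent.Zk33.NF.Core

set_option autoImplicit false
set_option linter.unusedSectionVars false

/-!
Nearness of sets; infinitesimal summands.
-/

open Set Topology
open scoped Pointwise
open Pool.Agent.H843R3.Had2 Pool.Agent.W677.Shadow Pool.Agent.W677.Summand

namespace Pool.Agent.Zk33.NF

section near

variable {E F : Type*} [NormedAddCommGroup E] [NormedSpace ℝ E] [NormedAddCommGroup F]
  [NormedSpace ℝ F]

/-- The Hausdorff distance of `S` and `T` is at most `δ`. -/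
def Near (δ : ℝ) (S T : Set E) : Prop :=
  (∀ x ∈ S, ∃ y ∈ T, dist x y ≤ δ) ∧ ∀ y ∈ T, ∃ x ∈ S, dist x y ≤ δ

variable {δ δ' c : ℝ} {S S' T T' : Set E}

theorem Near.refl (S : Set E) : Near 0 S S :=
  ⟨fun x hx => ⟨x, hx, by rw [dist_self]⟩, fun x hx => ⟨x, hx, by rw [dist_self]⟩⟩

theorem Near.symm (h : Near δ S T) : Near δ T S :=
  ⟨fun x hx => by
    obtain ⟨y, hy, h1⟩ := h.2 x hx
    exact ⟨y, hy, by rwa [dist_comm]⟩, fun x hx => by
    obtain ⟨y, hy, h1⟩ := h.1 x hx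
    exact ⟨y, hy, by rwa [dist_comm]⟩⟩

theorem Near.mono (h : Near δ S T) (h' : δ ≤ δ') : Near δ' S T :=
  ⟨fun x hx => by
    obtain ⟨y, hy, h1⟩ := h.1 x hx
    exact ⟨y, hy, h1.trans h'⟩, fun x hx => by
    obtain ⟨y, hy, h1⟩ := h.2 x hx
    exact ⟨y, hy, h1.trans h'⟩⟩

theorem Near.trans (h : Near δ S T) (h' : Near δ' T T') : Near (δ + δ') S T' :=
  ⟨fun x hx => by
    obtain ⟨y, hy, h1⟩ := h.1 x hx
    obtain ⟨z, hz, h2⟩ := h'.1 y hy
    exact ⟨z, hz, (dist_triangle x y z).trans (add_le_add h1 h2)⟩, fun z hz => by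
    obtain ⟨y, hy, h1⟩ := h'.2 z hz
    obtain ⟨x, hx, h2⟩ := h.2 y hy
    exact ⟨x, hx, (dist_triangle x y z).trans (add_le_add h2 h1)⟩⟩

theorem Near.add (h : Near δ S T) (h' : Near δ' S' T') : Near (δ + δ') (S + S') (T + T') := by
  constructor
  · rintro _ ⟨x, hx, y, hy, rfl⟩
    obtain ⟨x', hx', h1⟩ := h.1 x hx
    obtain ⟨y', hy', h2⟩ := h'.1 y hy
    exact ⟨x' + y', Set.add_mem_add hx' hy', (dist_add_add_le _ _ _ _).trans (add_le_add h1 h2)⟩
  · rintro _ ⟨x, hx, y, hy, rfl⟩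
    obtain ⟨x', hx', h1⟩ := h.2 x hx
    obtain ⟨y', hy', h2⟩ := h'.2 y hy
    exact ⟨x' + y', Set.add_mem_add hx' hy', (dist_add_add_le _ _ _ _).trans (add_le_add h1 h2)⟩

theorem Near.sum {ι : Type*} (s : Finset ι) (δ : ι → ℝ) (S T : ι → Set E)
    (h : ∀ i ∈ s, Near (δ i) (S i) (T i)) :
    Near (∑ i ∈ s, δ i) (∑ i ∈ s, S i) (∑ i ∈ s, T i) := by
  classical
  induction s using Finset.induction_on with
  | empty =>
    simp only [Finset.sum_empty]
    exact Near.refl _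
  | insert a s has ih =>
    rw [Finset.sum_insert has, Finset.sum_insert has, Finset.sum_insert has]
    exact (h a (Finset.mem_insert_self _ _)).add
      (ih fun i hi => h i (Finset.mem_insert_of_mem hi))

theorem Near.smul (h : Near δ S T) (hc : 0 ≤ c) : Near (c * δ) (c • S) (c • T) := by
  constructor
  · rintro _ ⟨x, hx, rfl⟩
    obtain ⟨x', hx', h1⟩ := h.1 x hx
    refine ⟨c • x', Set.smul_mem_smul_set hx', ?_⟩
    show dist (c • x) (c • x') ≤ _
    rw [dist_smul₀, Real.norm_eq_abs, abs_of_nonneg hc]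
    gcongr
  · rintro _ ⟨x, hx, rfl⟩
    obtain ⟨x', hx', h1⟩ := h.2 x hx
    refine ⟨c • x', Set.smul_mem_smul_set hx', ?_⟩
    show dist (c • x') (c • x) ≤ _
    rw [dist_smul₀, Real.norm_eq_abs, abs_of_nonneg hc]
    gcongr

theorem Near.image (h : Near δ S T) (f : E →L[ℝ] F) : Near (‖f‖ * δ) (f '' S) (f '' T) := by
  have key : ∀ x y : E, dist x y ≤ δ → dist (f x) (f y) ≤ ‖f‖ * δ := by
    intro x y hxy
    rw [dist_eq_norm, ← map_sub]
    refine (f.le_opNorm _).trans ?_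
    rw [dist_eq_norm] at hxy
    gcongr
  constructor
  · rintro _ ⟨x, hx, rfl⟩
    obtain ⟨x', hx', h1⟩ := h.1 x hx
    exact ⟨f x', mem_image_of_mem _ hx', key _ _ h1⟩
  · rintro _ ⟨x, hx, rfl⟩
    obtain ⟨x', hx', h1⟩ := h.2 x hx
    exact ⟨f x', mem_image_of_mem _ hx', key _ _ h1⟩

theorem near_of_hausdorff (hS : Bornology.IsBounded S) (hT : Bornology.IsBounded T)
    (hS' : S.Nonempty) (hT' : T.Nonempty) (h : Metric.hausdorffDist S T < δ) : Near δ S T := by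
  have hfin : Metric.hausdorffEDist S T ≠ ⊤ :=
    Metric.hausdorffEDist_ne_top_of_nonempty_of_bounded hS' hT' hS hT
  constructor
  · intro x hx
    obtain ⟨y, hy, h1⟩ := Metric.exists_dist_lt_of_hausdorffDist_lt hx h hfin
    exact ⟨y, hy, h1.le⟩
  · intro x hx
    obtain ⟨y, hy, h1⟩ := Metric.exists_dist_lt_of_hausdorffDist_lt' hx h hfin
    exact ⟨y, hy, h1.le⟩

/-- `A` is an infinitesimal summand of `K`. -/
def InfSummand (K A : Set E) : Prop :=
  ∀ ε : ℝ, 0 < ε → ∃ m : ℝ, 0 < m ∧ ∃ T : Set E, Near (ε * m) K (m • A + T)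

theorem InfSummand.refines {K A : Set E} (hA : IsCompact A) (h : InfSummand K A) :
    Refines K A := by
  intro X hX
  have h1 : ∀ k : ℕ, ∃ a ∈ A, ∀ f : E →L[ℝ] ℝ, Nrm K X f → ∀ b ∈ A,
      f b ≤ f a + 2 * ‖f‖ * (1 / ((k : ℝ) + 1)) := by
    intro k
    set ε : ℝ := 1 / ((k : ℝ) + 1) with hε
    have hε0 : 0 < ε := by positivity
    obtain ⟨m, hm, T, hT⟩ := h ε hε0
    obtain ⟨_, ⟨_, ⟨a, ha, rfl⟩, t, ht, rfl⟩, h2⟩ := hT.1 X hX
    refine ⟨a, ha, fun f hf b hb => ?_⟩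
    obtain ⟨y, hy, h3⟩ := hT.2 (m • b + t) (Set.add_mem_add (Set.smul_mem_smul_set hb) ht)
    simp only at h2
    have h4 : f X - f (m • a + t) ≤ ‖f‖ * (ε * m) := by
      rw [← map_sub]
      refine (le_abs_self _).trans ((f.le_opNorm _).trans ?_)
      rw [dist_eq_norm] at h2
      gcongr
    have h5 : f (m • b + t) - f y ≤ ‖f‖ * (ε * m) := by
      rw [← map_sub]
      refine (le_abs_self _).trans ((f.le_opNorm _).trans ?_)
      rw [dist_comm, dist_eq_norm] at h3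
      gcongr
    have h6 := hf y hy
    rw [map_add, map_smul, smul_eq_mul] at h4 h5
    have h7 : m * f b ≤ m * (f a + 2 * ‖f‖ * ε) := by nlinarith
    exact le_of_mul_le_mul_left h7 hm
  choose a ha h2 using h1
  obtain ⟨a₀, ha₀, φ, hφ, hlim⟩ := hA.tendsto_subseq ha
  refine ⟨a₀, ha₀, fun f hf b hb => ?_⟩
  have h3 : Filter.Tendsto (fun k => f (a (φ k)) + 2 * ‖f‖ * (1 / ((φ k : ℝ) + 1)))
      Filter.atTop (𝓝 (f a₀ + 2 * ‖f‖ * 0)) := by
    refine ((f.continuous.tendsto _).comp hlim).add (Filter.Tendsto.const_mul _ ?_)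
    exact tendsto_one_div_add_atTop_nhds_zero_nat.comp hφ.tendsto_atTop
  rw [mul_zero, add_zero] at h3
  exact ge_of_tendsto' h3 fun k => h2 (φ k) f hf b hb

end near

end Pool.Agent.Zk33.NF
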