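import Pool.Agent.Zk33.NF.Size

set_option autoImplicit false
set_option linter.unusedSectionVars false

/-!
A limit of sums of members of a closed class has an infinitesimal summand in the class.
-/

open Set Topology
open scoped Pointwise
open TopologicalSpace (NonemptyCompacts)
open Pool.Agent.H843R3.Had2 Pool.Agent.W677.Shadow Pool.Agent.W677.Summand

namespace Pool.Agent.Zk33.NF

theorem affine_image {E : Type*} [AddCommGroup E] [Module ℝ E] (p : E) (c : ℝ) (S : Set E) :
    (fun x => p + c • x) '' S = {p} + c • S := by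
  ext y
  simp only [mem_image, singleton_add, Set.mem_smul_set]
  constructor
  · rintro ⟨x, hx, rfl⟩
    exact ⟨c • x, ⟨x, hx, rfl⟩, rfl⟩
  · rintro ⟨_, ⟨x, hx, rfl⟩, rfl⟩
    exact ⟨x, hx, rfl⟩

theorem sum_homothets {E : Type*} [AddCommGroup E] [Module ℝ E] {A : Set E} (hA : Convex ℝ A)
    (hAn : A.Nonempty) {ι : Type*} (s : Finset ι) (p : ι → E) (c : ι → ℝ)
    (hc : ∀ i ∈ s, 0 ≤ c i) :
    ∑ i ∈ s, (({p i} : Set E) + c i • A) = {∑ i ∈ s, p i} + (∑ i ∈ s, c i) • A := by
  classical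
  induction s using Finset.induction_on with
  | empty =>
    rw [Finset.sum_empty, Finset.sum_empty, Finset.sum_empty, zero_smul_set hAn]
    simp only [singleton_zero, add_zero]
  | insert a s has ih =>
    rw [Finset.sum_insert has, Finset.sum_insert has, Finset.sum_insert has,
      ih fun i hi => hc i (Finset.mem_insert_of_mem hi),
      hA.add_smul (hc a (Finset.mem_insert_self _ _))
        (Finset.sum_nonneg fun i hi => hc i (Finset.mem_insert_of_mem hi)),
      ← Set.singleton_add_singleton]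
    abel

theorem pos_min {α : Type*} (t : Finset α) (e : α → ℝ) (h : ∀ a ∈ t, 0 < e a) :
    ∃ e₀ : ℝ, 0 < e₀ ∧ ∀ a ∈ t, e₀ ≤ e a := by
  classical
  induction t using Finset.induction_on with
  | empty => exact ⟨1, one_pos, by simp⟩
  | insert a s has ih =>
    obtain ⟨e₀, h1, h2⟩ := ih fun i hi => h i (Finset.mem_insert_of_mem hi)
    refine ⟨min e₀ (e a), lt_min h1 (h a (Finset.mem_insert_self _ _)), fun b hb => ?_⟩
    rcases Finset.mem_insert.1 hb with rfl | hb
    · exact min_le_right _ _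
    · exact (min_le_left _ _).trans (h2 b hb)

theorem near_of_dist {E : Type*} [NormedAddCommGroup E] [NormedSpace ℝ E]
    {L L' : NonemptyCompacts E} {δ : ℝ} (h : dist L L' < δ) :
    Near δ (L : Set E) (L' : Set E) := by
  rw [Metric.NonemptyCompacts.dist_eq] at h
  exact near_of_hausdorff L.isCompact.isBounded L'.isCompact.isBounded L.nonempty L'.nonempty h

variable {n : ℕ}

theorem exists_summand {C : Set (Set (Eu n))}
    (hC : ∀ S ∈ C, Convex ℝ S ∧ IsCompact S ∧ S.Nonempty)
    (hhom : ∀ S ∈ C, ∀ (c : ℝ) (p : Eu n), (fun x => p + c • x) '' S ∈ C)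
    (hlim : ∀ A : Set (Eu n), IsCompact A → A.Nonempty →
      (∀ ε : ℝ, 0 < ε → ∃ S ∈ C, Near ε A S) → A ∈ C)
    {K : Set (Eu n)} (hK : IsCompact K) (hKn : K.Nonempty) (hKs : 0 < size K)
    (h : ∀ ε : ℝ, 0 < ε → ∃ (k : ℕ) (S : Fin k → Set (Eu n)), (∀ i, S i ∈ C) ∧
      Near ε K (∑ i, S i)) :
    ∃ A ∈ C, 0 < size A ∧ InfSummand K A := by
  classical
  set D : Set (NonemptyCompacts (Eu n)) := {L | (L : Set (Eu n)) ∈ C ∧
    size (L : Set (Eu n)) = 1 ∧ (L : Set (Eu n)) ⊆ Metric.closedBall 0 1} with hD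
  have hcomp : IsCompact (closure D) :=
    (NonemptyCompacts.isCompact_subsets_of_isCompact
      (isCompact_closedBall (0 : Eu n) 1)).closure_of_subset (fun L hL => hL.2.2)
  have hclos : ∀ L ∈ closure D, (L : Set (Eu n)) ∈ C ∧ 0 < size (L : Set (Eu n)) := by
    intro L hL
    have h1 : ∀ ε : ℝ, 0 < ε → ∃ L' ∈ D, Near ε (L : Set (Eu n)) (L' : Set (Eu n)) := by
      intro ε hε
      obtain ⟨L', hL', h2⟩ := Metric.mem_closure_iff.1 hL ε hε
      exact ⟨L', hL', near_of_dist h2⟩
    refine ⟨hlim _ L.isCompact L.nonempty fun ε hε => ?_, ?_⟩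
    · obtain ⟨L', hL', h2⟩ := h1 ε hε
      exact ⟨L', hL'.1, h2⟩
    · obtain ⟨L', hL', h2⟩ := h1 (1 / (4 * n + 4)) (by positivity)
      have h3 := size_near L'.nonempty L'.isCompact L.nonempty L.isCompact h2.symm
      rw [hL'.2.1] at h3
      have h4 : 2 * (n : ℝ) * (1 / (4 * n + 4)) ≤ 1 / 2 := by
        rw [mul_one_div, div_le_iff₀ (by positivity)]
        linarith
      linarith
  by_contra hcon
  have h1 : ∀ L ∈ closure D, ∃ ε : ℝ, 0 < ε ∧ ∀ m : ℝ, 0 < m → ∀ T : Set (Eu n),
      ¬ Near (ε * m) K (m • (L : Set (Eu n)) + T) := by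
    intro L hL
    by_contra hcon2
    refine hcon ⟨L, (hclos L hL).1, (hclos L hL).2, fun ε hε => ?_⟩
    by_contra hcon3
    refine hcon2 ⟨ε, hε, fun m hm T hT => hcon3 ⟨m, hm, T, hT⟩⟩
  choose! e he0 he using h1
  obtain ⟨t, ht, hcov⟩ := hcomp.elim_nhds_subcover (fun L => Metric.ball L (e L / 4))
    (fun L hL => Metric.ball_mem_nhds _ (by have := he0 L hL; positivity))
  obtain ⟨e₀, he₀, he₀t⟩ := pos_min t e (fun L hL => he0 L (ht L hL))
  set δ : ℝ := min (size K / (4 * n + 4)) (e₀ * size K / (8 * (t.card + 1))) with hδ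
  have hδ0 : 0 < δ := lt_min (by positivity) (by positivity)
  obtain ⟨k, S, hS, hnear⟩ := h δ hδ0
  obtain ⟨hs1, hs2, hs3⟩ := size_sum Finset.univ S (fun i _ => ⟨(hC _ (hS i)).2.1, (hC _ (hS i)).2.2⟩)
  have hsK : size K / 2 ≤ ∑ i, size (S i) := by
    have h3 := size_near hKn hK hs3 hs2 hnear
    have h4 : 2 * (n : ℝ) * δ ≤ size K / 2 := by
      have h5 : δ ≤ size K / (4 * n + 4) := min_le_left _ _
      calc 2 * (n : ℝ) * δ ≤ 2 * n * (size K / (4 * n + 4)) := by gcongr
        _ ≤ size K / 2 := by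
          rw [mul_div_assoc', div_le_iff₀ (by positivity)]
          nlinarith
    rw [hs1] at h3
    linarith
  have hsn : ∀ i, 0 ≤ size (S i) := fun i => size_nonneg (hC _ (hS i)).2.1 (hC _ (hS i)).2.2
  choose p hp using fun i => (hC _ (hS i)).2.2
  set J : Finset (Fin k) := Finset.univ.filter (fun i => 0 < size (S i)) with hJ
  have hJs : ∑ i ∈ J, size (S i) = ∑ i, size (S i) := by
    refine Finset.sum_subset (Finset.filter_subset _ _) fun i _ hi => ?_
    have : ¬ 0 < size (S i) := fun h => hi (Finset.mem_filter.2 ⟨Finset.mem_univ _, h⟩)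
    exact le_antisymm (not_lt.1 this) (hsn i)
  -- the normalised sets
  have hnorm : ∀ i ∈ J, ∃ A ∈ t, Near (size (S i) * (e A / 4)) (S i)
      ({p i} + size (S i) • (A : Set (Eu n))) := by
    intro i hi
    have hsi : 0 < size (S i) := (Finset.mem_filter.1 hi).2
    set s := size (S i) with hs
    set S' : Set (Eu n) := (fun x => -((1 / s) • p i) + (1 / s) • x) '' S i with hS'
    have hS'C : S' ∈ C := hhom _ (hS i) _ _
    obtain ⟨_, hc2, hc3⟩ := hC _ hS'C
    have hsize : size S' = 1 := by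
      rw [hS', affine_image, size_add (singleton_nonempty _) isCompact_singleton
        ((hC _ (hS i)).2.2.smul_set) ((hC _ (hS i)).2.1.smul _), size_singleton, zero_add,
        size_smul (by positivity), ← hs]
      field_simp
    have h0 : (0 : Eu n) ∈ S' := ⟨p i, hp i, by simp⟩
    set L : NonemptyCompacts (Eu n) := ⟨⟨S', hc2⟩, hc3⟩ with hL
    have hLD : L ∈ D := by
      refine ⟨hS'C, hsize, fun x hx => ?_⟩
      rw [mem_closedBall_zero_iff, ← hsize]
      exact norm_le_size hc2 h0 hx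
    obtain ⟨A, hA, h2⟩ := Set.mem_iUnion₂.1 (hcov (subset_closure hLD))
    refine ⟨A, hA, ?_⟩
    have h3 : Near (e A / 4) S' (A : Set (Eu n)) := near_of_dist (L := L) h2
    have h4 := (Near.refl {p i}).add (h3.smul hsi.le)
    rw [zero_add] at h4
    have h5 : {p i} + s • S' = S i := by
      rw [← affine_image, hS', image_image]
      conv_rhs => rw [← image_id (S i)]
      refine image_congr fun x _ => ?_
      rw [smul_add, smul_neg, smul_smul, smul_smul, mul_one_div_cancel hsi.ne', one_smul, one_smul,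
        id]
      abel
    rwa [h5] at h4
  have hJn : ∑ i ∈ J, size (S i) ≠ 0 := by
    rw [hJs]
    have : 0 < size K / 2 := by positivity
    linarith [hsK]
  have htn : t.Nonempty := by
    obtain ⟨i, hi, _⟩ := Finset.exists_ne_zero_of_sum_ne_zero hJn
    obtain ⟨A, hA, _⟩ := hnorm i hi
    exact ⟨A, hA⟩
  choose! g hg1 hg2 using hnorm
  have htc : (0 : ℝ) < t.card := by exact_mod_cast htn.card_pos
  obtain ⟨A, hA, hM⟩ := Finset.exists_le_sum_fiber_of_maps_to_of_nsmul_le_sum (s := J) (t := t)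
    (f := g) (w := fun i => size (S i)) (b := size K / (2 * t.card)) hg1 htn (by
      rw [nsmul_eq_mul, hJs]
      refine le_trans (le_of_eq ?_) hsK
      field_simp)
  set cell : Finset (Fin k) := J.filter (fun i => g i = A) with hcell
  set M : ℝ := ∑ i ∈ cell, size (S i) with hMdef
  have hM0 : 0 < M := lt_of_lt_of_le (by positivity) hM
  have hAC := hC _ (hclos A (ht A hA)).1
  have hn1 : Near (∑ i ∈ cell, size (S i) * (e A / 4)) (∑ i ∈ cell, S i)
      (∑ i ∈ cell, ({p i} + size (S i) • (A : Set (Eu n)))) := by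
    refine Near.sum cell _ _ _ fun i hi => ?_
    obtain ⟨hi1, hi2⟩ := Finset.mem_filter.1 hi
    have := hg2 i hi1
    rwa [hi2] at this
  rw [sum_homothets hAC.1 hAC.2.2 cell p _ (fun i _ => hsn i), ← Finset.sum_mul, ← hMdef] at hn1
  have hn2 := hn1.add (Near.refl (∑ i ∈ cellᶜ, S i))
  rw [Finset.sum_add_sum_compl, add_zero] at hn2
  have hn3 := hnear.trans hn2
  have hset : ({∑ i ∈ cell, p i} : Set (Eu n)) + M • (A : Set (Eu n)) + ∑ i ∈ cellᶜ, S i =
      M • (A : Set (Eu n)) + ({∑ i ∈ cell, p i} + ∑ i ∈ cellᶜ, S i) := by abel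
  rw [hset] at hn3
  refine he A (ht A hA) M hM0 _ (hn3.mono ?_)
  have h5 : δ ≤ e₀ * size K / (8 * (t.card + 1)) := min_le_right _ _
  have h6 : e₀ ≤ e A := he₀t A hA
  have h7 : size K ≤ M * (2 * t.card) := by
    rwa [div_le_iff₀ (by positivity)] at hM
  have h8 : e₀ * size K / (8 * (t.card + 1)) ≤ e A * M / 4 := by
    rw [div_le_div_iff₀ (by positivity) (by norm_num)]
    have h9 : e₀ * size K ≤ e A * (M * (2 * t.card)) := by
      have := he0 A (ht A hA)
      gcongr
    have h10 : 0 < e A * M := by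
      have := he0 A (ht A hA)
      positivity
    nlinarith
  have h11 : 0 < e A * M := by
    have := he0 A (ht A hA)
    positivity
  linarith

end Pool.Agent.Zk33.NF
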