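import Pool.Agent.Zk33.NF.Near

set_option autoImplicit false
set_option linter.unusedSectionVars false

/-!
The size of a compact set: the sum of its widths in the directions of the coordinates.
-/

open Set Topology
open scoped Pointwise
open Pool.Agent.H843R3.Had2 Pool.Agent.W677.Shadow Pool.Agent.W677.Summand

namespace Pool.Agent.Zk33.NF

section sup

variable {E : Type*} [NormedAddCommGroup E] [NormedSpace ℝ E]

/-- the support function -/
noncomputable def sup (f : E →L[ℝ] ℝ) (S : Set E) : ℝ := sSup (f '' S)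

variable {f : E →L[ℝ] ℝ} {S T : Set E} {c δ : ℝ}

theorem bdd (f : E →L[ℝ] ℝ) (hS : IsCompact S) : BddAbove (f '' S) :=
  (hS.image f.continuous).bddAbove

theorem le_sup (hS : IsCompact S) {x : E} (hx : x ∈ S) : f x ≤ sup f S :=
  le_csSup (bdd f hS) (mem_image_of_mem _ hx)

theorem sup_le (hS : S.Nonempty) (h : ∀ x ∈ S, f x ≤ c) : sup f S ≤ c := by
  refine csSup_le (hS.image f) ?_
  rintro _ ⟨x, hx, rfl⟩
  exact h x hx

theorem sup_add (hS : S.Nonempty) (hSc : IsCompact S) (hT : T.Nonempty) (hTc : IsCompact T) :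
    sup f (S + T) = sup f S + sup f T := by
  rw [sup, Set.image_add, csSup_add (hS.image f) (bdd f hSc) (hT.image f) (bdd f hTc)]
  rfl

theorem sup_singleton (p : E) : sup f {p} = f p := by
  rw [sup, image_singleton, csSup_singleton]

theorem sup_smul (hc : 0 ≤ c) : sup f (c • S) = c * sup f S := by
  rw [sup, sup, ← smul_eq_mul, ← Real.sSup_smul_of_nonneg hc]
  congr 1
  ext y
  simp only [mem_image, Set.mem_smul_set]
  constructor
  · rintro ⟨_, ⟨x, hx, rfl⟩, rfl⟩
    exact ⟨f x, ⟨x, hx, rfl⟩, by rw [map_smul]⟩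
  · rintro ⟨_, ⟨x, hx, rfl⟩, rfl⟩
    exact ⟨c • x, ⟨x, hx, rfl⟩, by rw [map_smul]⟩

theorem sup_near (hS : S.Nonempty) (hT : IsCompact T) (h : Near δ S T) :
    sup f S ≤ sup f T + ‖f‖ * δ := by
  refine sup_le hS fun x hx => ?_
  obtain ⟨y, hy, h1⟩ := h.1 x hx
  have h2 := le_sup (f := f) hT hy
  have h3 : f x - f y ≤ ‖f‖ * δ := by
    rw [← map_sub]
    refine (le_abs_self _).trans ((f.le_opNorm _).trans ?_)
    rw [dist_eq_norm] at h1
    gcongr
  linarith

end sup

variable {n : ℕ}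

/-- coordinates -/
noncomputable def P (l : Fin n) : Eu n →L[ℝ] ℝ := EuclideanSpace.proj l

theorem P_apply (l : Fin n) (x : Eu n) : P l x = x l := rfl

theorem norm_P (l : Fin n) : ‖P l‖ ≤ 1 := by
  refine ContinuousLinearMap.opNorm_le_bound _ zero_le_one fun x => ?_
  rw [one_mul, P_apply]
  exact PiLp.norm_apply_le x l

/-- the size -/
noncomputable def size (S : Set (Eu n)) : ℝ := ∑ l, (sup (P l) S + sup (-P l) S)

variable {S T : Set (Eu n)} {c δ : ℝ}

theorem width_nonneg (hSc : IsCompact S) (hS : S.Nonempty) (f : Eu n →L[ℝ] ℝ) :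
    0 ≤ sup f S + sup (-f) S := by
  obtain ⟨x, hx⟩ := hS
  have h1 := le_sup (f := f) hSc hx
  have h2 := le_sup (f := -f) hSc hx
  have h3 : (-f) x = - f x := rfl
  linarith

theorem size_nonneg (hSc : IsCompact S) (hS : S.Nonempty) : 0 ≤ size S :=
  Finset.sum_nonneg fun _ _ => width_nonneg hSc hS _

theorem size_add (hS : S.Nonempty) (hSc : IsCompact S) (hT : T.Nonempty) (hTc : IsCompact T) :
    size (S + T) = size S + size T := by
  rw [size, size, size, ← Finset.sum_add_distrib]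
  refine Finset.sum_congr rfl fun l _ => ?_
  rw [sup_add hS hSc hT hTc, sup_add hS hSc hT hTc]
  ring

theorem size_singleton (p : Eu n) : size {p} = 0 := by
  refine Finset.sum_eq_zero fun l _ => ?_
  rw [sup_singleton, sup_singleton]
  have h3 : (-P l) p = - P l p := rfl
  rw [h3]; ring

theorem size_smul (hc : 0 ≤ c) : size (c • S) = c * size S := by
  rw [size, size, Finset.mul_sum]
  refine Finset.sum_congr rfl fun l _ => ?_
  rw [sup_smul hc, sup_smul hc]
  ring

theorem size_sum {ι : Type*} (s : Finset ι) (S : ι → Set (Eu n))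
    (h : ∀ i ∈ s, IsCompact (S i) ∧ (S i).Nonempty) :
    size (∑ i ∈ s, S i) = ∑ i ∈ s, size (S i) ∧ IsCompact (∑ i ∈ s, S i) ∧
      (∑ i ∈ s, S i).Nonempty := by
  classical
  induction s using Finset.induction_on with
  | empty =>
    rw [Finset.sum_empty, Finset.sum_empty]
    exact ⟨size_singleton 0, isCompact_singleton, singleton_nonempty _⟩
  | insert a s has ih =>
    obtain ⟨h1, h2, h3⟩ := ih fun i hi => h i (Finset.mem_insert_of_mem hi)
    obtain ⟨h4, h5⟩ := h a (Finset.mem_insert_self _ _)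
    rw [Finset.sum_insert has, Finset.sum_insert has]
    refine ⟨?_, h4.add h2, h5.add h3⟩
    rw [size_add h5 h4 h3 h2, h1]

theorem size_near (hS : S.Nonempty) (hSc : IsCompact S) (hT : T.Nonempty) (hTc : IsCompact T)
    (h : Near δ S T) : size S ≤ size T + 2 * n * δ := by
  have hδ : 0 ≤ δ := by
    obtain ⟨x, hx⟩ := hS
    obtain ⟨y, _, h1⟩ := h.1 x hx
    exact dist_nonneg.trans h1
  have h1 : ∀ f : Eu n →L[ℝ] ℝ, ‖f‖ ≤ 1 → sup f S ≤ sup f T + δ := by
    intro f hf
    refine (sup_near hS hTc h).trans ?_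
    have : ‖f‖ * δ ≤ 1 * δ := by gcongr
    linarith
  have h2 : size S ≤ ∑ l : Fin n, ((sup (P l) T + sup (-P l) T) + 2 * δ) := by
    refine Finset.sum_le_sum fun l _ => ?_
    have h3 := h1 (P l) (norm_P l)
    have h4 := h1 (-P l) (by rw [norm_neg]; exact norm_P l)
    linarith
  rw [Finset.sum_add_distrib] at h2
  simp only [Finset.sum_const, Finset.card_univ, Fintype.card_fin, nsmul_eq_mul] at h2
  rw [size] at h2 ⊢
  rw [size]
  linarith

theorem eq_singleton_of_size (hSc : IsCompact S) (h : size S = 0) {p : Eu n} (hp : p ∈ S) :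
    S = {p} := by
  have h1 := (Finset.sum_eq_zero_iff_of_nonneg (fun l _ => width_nonneg hSc ⟨p, hp⟩ (P l))).1 h
  refine subset_antisymm (fun x hx => ?_) (singleton_subset_iff.2 hp)
  rw [mem_singleton_iff]
  ext l
  have h2 := h1 l (Finset.mem_univ _)
  have h3 := le_sup (f := P l) hSc hx
  have h4 := le_sup (f := -P l) hSc hx
  have h5 := le_sup (f := P l) hSc hp
  have h6 := le_sup (f := -P l) hSc hp
  have h7 : ∀ y, (-P l) y = - y l := fun _ => rfl
  rw [h7] at h4 h6
  rw [P_apply] at h3 h5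
  linarith

theorem norm_le_sum (x : Eu n) : ‖x‖ ≤ ∑ l, |x l| := by
  have h1 : x = ∑ l, (x l) • EuclideanSpace.single l (1 : ℝ) := by
    ext j
    simp [Pi.single_apply]
  calc ‖x‖ = ‖∑ l, (x l) • EuclideanSpace.single l (1 : ℝ)‖ := by rw [← h1]
    _ ≤ ∑ l, ‖(x l) • EuclideanSpace.single l (1 : ℝ)‖ := norm_sum_le _ _
    _ = ∑ l, |x l| := by
      refine Finset.sum_congr rfl fun l _ => ?_
      rw [norm_smul, PiLp.norm_single, norm_one, mul_one, Real.norm_eq_abs]

theorem norm_le_size (hSc : IsCompact S) (h0 : (0 : Eu n) ∈ S) {x : Eu n} (hx : x ∈ S) :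
    ‖x‖ ≤ size S := by
  refine (norm_le_sum x).trans (Finset.sum_le_sum fun l _ => ?_)
  have h7 : ∀ y, (-P l) y = - y l := fun _ => rfl
  have h3 := le_sup (f := P l) hSc hx
  have h4 := le_sup (f := -P l) hSc hx
  have h5 := le_sup (f := P l) hSc h0
  have h6 := le_sup (f := -P l) hSc h0
  rw [map_zero] at h5 h6
  rw [h7] at h4
  rw [P_apply] at h3
  rcases abs_cases (x l) with ⟨h, _⟩ | ⟨h, _⟩ <;> rw [h] <;> linarith

end Pool.Agent.Zk33.NF
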